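import Pool.Agent.Lib.MP_85878b_an.Energy

/-! # The complement of a maximiser whose norm is attained has empty interior -/

set_option autoImplicit false

namespace Pool.Agent.Lib.MP_85878b_an

open MeasureTheory Metric Set Filter Topology
open scoped ENNReal

/-- The complement of the image of a maximiser whose multiplier norm is attained has no interior
point. -/
theorem interior_compl {a : ℝ} (ha : -1 < a) {f : ℂ → ℂ} (hf : ClassS f)
    (hmax : ∀ g, ClassS g → mult a (schw g) ≤ mult a (schw f))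
    {φ : ℂ → ℂ} (hφ : DifferentiableOn ℂ φ (ball 0 1)) (hφ1 : berg a φ = 1)
    (hatt : berg (a + 4) (fun z => schw f z * φ z) = mult a (schw f)) :
    interior (f '' ball 0 1)ᶜ = ∅ := by
  by_contra hcon
  obtain ⟨w₀, hw₀⟩ := nonempty_iff_ne_empty.mpr hcon
  rw [mem_interior] at hw₀
  obtain ⟨U, hU1, hU2, hU3⟩ := hw₀
  obtain ⟨ρ, hρ, hball⟩ := Metric.isOpen_iff.mp hU2 w₀ hU3
  have h0m : (0 : ℂ) ∈ ball (0 : ℂ) 1 := mem_ball_self one_pos
  have hfar : ∀ z ∈ ball (0 : ℂ) 1, ρ ≤ ‖f z - w₀‖ := by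
    intro z hz
    by_contra hlt
    rw [not_le] at hlt
    have h1 : f z ∈ ball w₀ ρ := by rwa [mem_ball_iff_norm]
    exact hU1 (hball h1) ⟨z, hz, rfl⟩
  have hv : ∀ z ∈ ball (0 : ℂ) 1, f z - w₀ ≠ 0 := by
    intro z hz h
    have := hfar z hz
    rw [h, norm_zero] at this
    linarith
  have hder : ∀ z ∈ ball (0 : ℂ) 1, deriv f z ≠ 0 := fun z hz =>
    CcaPl.deriv_ne_zero_of_injOn f _ isOpen_ball hf.diff hf.inj z hz
  have hτ : ∀ t ∈ ball (0 : ℂ) 1, ∀ z ∈ ball (0 : ℂ) 1, ∀ w ∈ ball (0 : ℂ) 1,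
      (f z - w₀) * (f w - w₀) - (ρ : ℂ) ^ 2 * t ≠ 0 := by
    intro t ht z hz w hw h
    have h1 : (f z - w₀) * (f w - w₀) = (ρ : ℂ) ^ 2 * t := sub_eq_zero.mp h
    have h2 := congrArg norm h1
    rw [norm_mul, norm_mul, norm_pow, Complex.norm_real, Real.norm_of_nonneg hρ.le] at h2
    have h3 : ρ * ρ ≤ ‖f z - w₀‖ * ‖f w - w₀‖ :=
      mul_le_mul (hfar z hz) (hfar w hw) hρ.le (norm_nonneg _)
    have h4 : ‖t‖ < 1 := mem_ball_zero_iff.mp ht
    have h5 : ρ ^ 2 * ‖t‖ < ρ ^ 2 * 1 := by gcongr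
    nlinarith
  have hex : ∀ t : ℂ, ∃ g : ℂ → ℂ, t ∈ ball (0 : ℂ) 1 →
      ClassS g ∧ schw g = schw (fun u => f u + (ρ : ℂ) ^ 2 * t / (f u - w₀)) := by
    intro t
    by_cases ht : t ∈ ball (0 : ℂ) 1
    · have hd : DifferentiableOn ℂ (fun u => f u + (ρ : ℂ) ^ 2 * t / (f u - w₀)) (ball 0 1) :=
        hf.diff.add ((differentiableOn_const _).div (hf.diff.sub_const w₀) hv)
      have hi : InjOn (fun u => f u + (ρ : ℂ) ^ 2 * t / (f u - w₀)) (ball 0 1) := by
        intro x hx y hy hxy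
        have hx0 := hv x hx
        have hy0 := hv y hy
        have h1 := hτ t ht x hx y hy
        have hxy' : f x + (ρ : ℂ) ^ 2 * t / (f x - w₀) = f y + (ρ : ℂ) ^ 2 * t / (f y - w₀) := hxy
        have h2 : (f x - f y) * ((f x - w₀) * (f y - w₀) - (ρ : ℂ) ^ 2 * t) = 0 := by
          have h3 : (f x + (ρ : ℂ) ^ 2 * t / (f x - w₀)) * ((f x - w₀) * (f y - w₀)) =
              (f y + (ρ : ℂ) ^ 2 * t / (f y - w₀)) * ((f x - w₀) * (f y - w₀)) := by rw [hxy']
          have h4 : (f x + (ρ : ℂ) ^ 2 * t / (f x - w₀)) * ((f x - w₀) * (f y - w₀)) =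
              f x * ((f x - w₀) * (f y - w₀)) + (ρ : ℂ) ^ 2 * t * (f y - w₀) := by
            field_simp
          have h5 : (f y + (ρ : ℂ) ^ 2 * t / (f y - w₀)) * ((f x - w₀) * (f y - w₀)) =
              f y * ((f x - w₀) * (f y - w₀)) + (ρ : ℂ) ^ 2 * t * (f x - w₀) := by
            field_simp
          rw [h4, h5] at h3
          linear_combination h3
        have h3 := (mul_eq_zero.mp h2).resolve_right h1
        exact hf.inj hx hy (sub_eq_zero.mp h3)
      obtain ⟨g, hg1, hg2⟩ := normalise hd hi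
      exact ⟨g, fun _ => ⟨hg1, hg2⟩⟩
    · exact ⟨f, fun h => absurd h ht⟩
  choose g hg using hex
  have hformula : ∀ t ∈ ball (0 : ℂ) 1, ∀ z ∈ ball (0 : ℂ) 1, schw (g t) z =
      schw f z - 6 * ((ρ : ℂ) ^ 2 * t) * deriv f z ^ 2 / ((f z - w₀) ^ 2 - (ρ : ℂ) ^ 2 * t) ^ 2 := by
    intro t ht z hz
    rw [(hg t ht).2]
    refine schw_var hf.diff w₀ _ hder hv ?_ hz
    intro u hu
    have := hτ t ht u hu u hu
    rwa [← pow_two] at this
  have hdisc : HolDisc f g := by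
    refine ⟨fun t ht => (hg t ht).1, ?_, ?_⟩
    · intro z hz
      have h1 : DifferentiableOn ℂ (fun t => schw f z - 6 * ((ρ : ℂ) ^ 2 * t) * deriv f z ^ 2 /
          ((f z - w₀) ^ 2 - (ρ : ℂ) ^ 2 * t) ^ 2) (ball 0 1) := by
        refine (differentiableOn_const _).sub (DifferentiableOn.div (by fun_prop) (by fun_prop) ?_)
        intro t ht
        have := hτ t ht z hz z hz
        rw [← pow_two] at this
        exact pow_ne_zero 2 this
      exact h1.congr fun t ht => hformula t ht z hz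
    · intro z hz
      rw [hformula 0 h0m z hz]
      simp
  have hrig := rigid ha hf hmax hφ hφ1 hatt hdisc
  · have hm : (1 / 2 : ℂ) ∈ ball (0 : ℂ) 1 := by
      rw [mem_ball_zero_iff]
      norm_num
    have h1 := hrig (1 / 2) hm 0 h0m
    rw [hformula (1 / 2) hm 0 h0m] at h1
    have h2 : 6 * ((ρ : ℂ) ^ 2 * (1 / 2)) * deriv f 0 ^ 2 /
        ((f 0 - w₀) ^ 2 - (ρ : ℂ) ^ 2 * (1 / 2)) ^ 2 = 0 := by
      linear_combination -h1
    have hρc : (ρ : ℂ) ≠ 0 := by exact_mod_cast hρ.ne'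
    have h3 := hτ (1 / 2) hm 0 h0m 0 h0m
    rw [← pow_two] at h3
    have h4 := hder 0 h0m
    rw [div_eq_zero_iff] at h2
    rcases h2 with h2 | h2
    · have : (6 : ℂ) * ((ρ : ℂ) ^ 2 * (1 / 2)) * deriv f 0 ^ 2 ≠ 0 := by
        refine mul_ne_zero (mul_ne_zero (by norm_num) (mul_ne_zero (pow_ne_zero 2 hρc)
          (by norm_num))) (pow_ne_zero 2 h4)
      exact this h2
    · exact pow_ne_zero 2 h3 h2

end Pool.Agent.Lib.MP_85878b_an
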