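import Pool.Agent.Lib.MP_85878b_an.Mean

/-! # Congruences modulo `t ^ L` for holomorphic functions of `t`, and a Bessel inequality -/

set_option autoImplicit false

namespace Pool.Agent.Lib.MP_85878b_an

open MeasureTheory Metric Set Filter Topology
open scoped ENNReal

/-- `F(t) = c + t^L e(t)` on the unit disc with `e` holomorphic. -/
def Cong (L : ℕ) (F : ℂ → ℂ) (c : ℂ) : Prop :=
  ∃ e : ℂ → ℂ, DifferentiableOn ℂ e (ball 0 1) ∧ ∀ t ∈ ball (0 : ℂ) 1, F t = c + t ^ L * e t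

theorem Cong.diff {L : ℕ} {F : ℂ → ℂ} {c : ℂ} (h : Cong L F c) :
    DifferentiableOn ℂ F (ball 0 1) := by
  obtain ⟨e, he, hF⟩ := h
  have h1 : DifferentiableOn ℂ (fun t => c + t ^ L * e t) (ball 0 1) :=
    (differentiableOn_const c).add ((differentiableOn_id.pow L).mul he)
  exact h1.congr hF

theorem Cong.const (L : ℕ) (c : ℂ) : Cong L (fun _ => c) c :=
  ⟨fun _ => 0, differentiableOn_const 0, fun t _ => by ring⟩

theorem Cong.add {L : ℕ} {F G : ℂ → ℂ} {c d : ℂ} (h1 : Cong L F c) (h2 : Cong L G d) :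
    Cong L (fun t => F t + G t) (c + d) := by
  obtain ⟨e, he, hF⟩ := h1
  obtain ⟨e', he', hG⟩ := h2
  exact ⟨fun t => e t + e' t, he.add he', fun t ht => by simp only [hF t ht, hG t ht]; ring⟩

theorem Cong.sub {L : ℕ} {F G : ℂ → ℂ} {c d : ℂ} (h1 : Cong L F c) (h2 : Cong L G d) :
    Cong L (fun t => F t - G t) (c - d) := by
  obtain ⟨e, he, hF⟩ := h1
  obtain ⟨e', he', hG⟩ := h2
  exact ⟨fun t => e t - e' t, he.sub he', fun t ht => by simp only [hF t ht, hG t ht]; ring⟩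

theorem Cong.mul {L : ℕ} {F G : ℂ → ℂ} {c d : ℂ} (h1 : Cong L F c) (h2 : Cong L G d) :
    Cong L (fun t => F t * G t) (c * d) := by
  have hGd := h2.diff
  obtain ⟨e, he, hF⟩ := h1
  obtain ⟨e', he', hG⟩ := h2
  refine ⟨fun t => e t * G t + c * e' t, (he.mul hGd).add (he'.const_mul c), fun t ht => ?_⟩
  simp only [hF t ht, hG t ht]
  ring

theorem Cong.inv {L : ℕ} {F : ℂ → ℂ} {c : ℂ} (h : Cong L F c) (hc : c ≠ 0)
    (h0 : ∀ t ∈ ball (0 : ℂ) 1, F t ≠ 0) : Cong L (fun t => (F t)⁻¹) c⁻¹ := by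
  have hFd := h.diff
  obtain ⟨e, he, hF⟩ := h
  refine ⟨fun t => -(e t) / (c * F t), (he.neg).div (hFd.const_mul c) fun t ht =>
    mul_ne_zero hc (h0 t ht), fun t ht => ?_⟩
  have h1 := h0 t ht
  have h2 : t ^ L * e t = F t - c := by rw [hF t ht]; ring
  have h3 : t ^ L * (-(e t) / (c * F t)) = -(t ^ L * e t) / (c * F t) := by ring
  rw [h3, h2]
  field_simp
  ring

theorem Cong.div {L : ℕ} {F G : ℂ → ℂ} {c d : ℂ} (h1 : Cong L F c) (h2 : Cong L G d)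
    (hd : d ≠ 0) (h0 : ∀ t ∈ ball (0 : ℂ) 1, G t ≠ 0) :
    Cong L (fun t => F t / G t) (c / d) := by
  simp only [div_eq_mul_inv]
  exact h1.mul (h2.inv hd h0)

theorem Cong.sq {L : ℕ} {F : ℂ → ℂ} {c : ℂ} (h : Cong L F c) :
    Cong L (fun t => F t ^ 2) (c ^ 2) := by
  simp only [pow_two]
  exact h.mul h

theorem Cong.tmul {L : ℕ} {F : ℂ → ℂ} (hF : DifferentiableOn ℂ F (ball 0 1)) (k : ℕ) :
    Cong L (fun t => F t * t ^ (L + k)) 0 :=
  ⟨fun t => t ^ k * F t, (differentiableOn_id.pow k).mul hF, fun t _ => by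
    simp only [zero_add, pow_add]; ring⟩

theorem Cong.congr {L : ℕ} {F G : ℂ → ℂ} {c : ℂ} (h : Cong L F c)
    (hFG : ∀ t ∈ ball (0 : ℂ) 1, G t = F t) : Cong L G c := by
  obtain ⟨e, he, hF⟩ := h
  exact ⟨e, he, fun t ht => by rw [hFG t ht, hF t ht]⟩

/-- A Bessel inequality: the first coefficients of `G(t) = Σ_{k<N} c_k t^k + t^L e(t)`, `N ≤ L`. -/
theorem bessel {r : ℝ} (hr0 : 0 < r) (hr1 : r < 1) (N : ℕ) : ∀ (L : ℕ), N ≤ L →
    ∀ (G e : ℂ → ℂ) (c : ℕ → ℂ), DifferentiableOn ℂ G (ball 0 1) →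
    DifferentiableOn ℂ e (ball 0 1) →
    (∀ t ∈ ball (0 : ℂ) 1, G t = ∑ k ∈ Finset.range N, c k * t ^ k + t ^ L * e t) →
    ENNReal.ofReal (2 * Real.pi) *
      ∑ k ∈ Finset.range N, ENNReal.ofReal (‖c k‖ ^ 2 * r ^ (2 * k)) ≤
      ∫⁻ θ in Ioo 0 (2 * Real.pi), ENNReal.ofReal (‖G (circleMap 0 r θ)‖ ^ 2) := by
  induction N with
  | zero =>
    intro L _ G e c _ _ _
    simp
  | succ N ih =>
    intro L hL G e c hG he hGe
    obtain ⟨L', rfl⟩ : ∃ L', L = L' + 1 := ⟨L - 1, by omega⟩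
    have h0m : (0 : ℂ) ∈ ball (0 : ℂ) 1 := mem_ball_self one_pos
    obtain ⟨G₁, hG₁⟩ : ∃ G₁ : ℂ → ℂ, G₁ = fun t =>
      ∑ k ∈ Finset.range N, c (k + 1) * t ^ k + t ^ L' * e t := ⟨_, rfl⟩
    have hG1d : DifferentiableOn ℂ G₁ (ball 0 1) := by
      rw [hG₁]
      refine DifferentiableOn.add ?_ ((differentiableOn_id.pow L').mul he)
      fun_prop
    have hstep : ∀ t ∈ ball (0 : ℂ) 1, G t = c 0 + t * G₁ t := by
      intro t ht
      rw [hGe t ht, hG₁, Finset.sum_range_succ']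
      simp only [pow_zero, mul_one, mul_add, Finset.mul_sum]
      have : ∀ k, c (k + 1) * t ^ (k + 1) = t * (c (k + 1) * t ^ k) := fun k => by ring
      simp only [this]
      ring
    have hG0 : G 0 = c 0 := by rw [hstep 0 h0m]; ring
    have h1 := mean_sq hG hr0 hr1
    have h2 := ih L' (by omega) G₁ e (fun k => c (k + 1)) hG1d he (fun t _ => by rw [hG₁])
    have h3 : ∫⁻ θ in Ioo 0 (2 * Real.pi), ENNReal.ofReal (‖G (circleMap 0 r θ) - G 0‖ ^ 2) =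
        ENNReal.ofReal (r ^ 2) *
          ∫⁻ θ in Ioo 0 (2 * Real.pi), ENNReal.ofReal (‖G₁ (circleMap 0 r θ)‖ ^ 2) := by
      rw [← lintegral_const_mul' _ _ ENNReal.ofReal_ne_top]
      refine lintegral_congr fun θ => ?_
      rw [hG0, hstep _ (circle_mem hr0 hr1 θ), add_sub_cancel_left,
        ← ENNReal.ofReal_mul (by positivity), norm_mul, norm_circleMap_zero, abs_of_pos hr0]
      congr 1
      ring
    rw [h1, h3, hG0, Finset.sum_range_succ']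
    have h4 : ∀ k, ENNReal.ofReal (‖c (k + 1)‖ ^ 2 * r ^ (2 * (k + 1))) =
        ENNReal.ofReal (r ^ 2) * ENNReal.ofReal (‖c (k + 1)‖ ^ 2 * r ^ (2 * k)) := by
      intro k
      rw [← ENNReal.ofReal_mul (by positivity)]
      congr 1
      ring
    simp only [h4, ← Finset.mul_sum]
    rw [mul_add, add_comm]
    have h5 : ‖c 0‖ ^ 2 * r ^ (2 * 0) = ‖c 0‖ ^ 2 := by simp
    rw [h5, mul_left_comm]
    gcongr

end Pool.Agent.Lib.MP_85878b_an
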