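import Mathlib

/-! # The integrals of `cos ^ p` over `(-π/2, π/2)` and of `(2 / cosh x) ^ η` over the line -/

set_option autoImplicit false

namespace Pool.Agent.Lib.MP_85878b_an

open MeasureTheory Metric Set
open scoped ENNReal

theorem cos_pos_of {y : ℝ} (hy : y ∈ Ioo (-(Real.pi / 2)) (Real.pi / 2)) : 0 < Real.cos y :=
  Real.cos_pos_of_mem_Ioo hy

theorem sincos_deriv {p : ℝ} {y : ℝ} (hy : y ∈ Ioo (-(Real.pi / 2)) (Real.pi / 2)) :
    HasDerivAt (fun y => Real.sin y * Real.cos y ^ (p + 1))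
      ((p + 2) * Real.cos y ^ (p + 2) - (p + 1) * Real.cos y ^ p) y := by
  have hc := cos_pos_of hy
  have h1 : HasDerivAt (fun y => Real.cos y ^ (p + 1))
      (-Real.sin y * (p + 1) * Real.cos y ^ (p + 1 - 1)) y :=
    (Real.hasDerivAt_cos y).rpow_const (Or.inl hc.ne')
  refine ((Real.hasDerivAt_sin y).mul h1).congr_deriv ?_
  have e1 : p + 1 - 1 = p := by ring
  have e2 : Real.cos y ^ (p + 1) = Real.cos y ^ p * Real.cos y := by
    rw [Real.rpow_add hc, Real.rpow_one]
  have e3 : Real.cos y ^ (p + 2) = Real.cos y ^ p * Real.cos y ^ 2 := by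
    rw [Real.rpow_add hc, Real.rpow_two]
  have e4 : Real.sin y ^ 2 = 1 - Real.cos y ^ 2 := Real.sin_sq y
  rw [e1, e2, e3]
  linear_combination (-(p + 1) * Real.cos y ^ p) * e4

theorem sincos_cont {p : ℝ} (hp : -1 < p) :
    Continuous (fun y => Real.sin y * Real.cos y ^ (p + 1)) :=
  Real.continuous_sin.mul (Real.continuous_cos.rpow_const fun _ => Or.inr (by linarith))

theorem cos_int {p : ℝ} (hp : -1 < p) :
    IntegrableOn (fun y => Real.cos y ^ p) (Ioo (-(Real.pi / 2)) (Real.pi / 2)) := by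
  have hpi := Real.pi_pos
  have h1 : IntegrableOn (fun y => (p + 2) - ((p + 2) * Real.cos y ^ (p + 2) -
      (p + 1) * Real.cos y ^ p)) (Ioc (-(Real.pi / 2)) (Real.pi / 2)) := by
    refine intervalIntegral.integrableOn_deriv_of_nonneg
      (g := fun y => (p + 2) * y - Real.sin y * Real.cos y ^ (p + 1)) ?_ ?_ ?_
    · exact ((continuous_const.mul continuous_id).sub (sincos_cont hp)).continuousOn
    · intro y hy
      have h2 : HasDerivAt (fun y : ℝ => (p + 2) * y) (p + 2) y := by
        simpa using (hasDerivAt_id y).const_mul (p + 2)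
      exact h2.sub (sincos_deriv hy)
    · intro y hy
      have hc := cos_pos_of hy
      have h2 : Real.cos y ^ (p + 2) ≤ 1 :=
        Real.rpow_le_one hc.le (Real.cos_le_one y) (by linarith)
      have h3 : 0 ≤ Real.cos y ^ p := Real.rpow_nonneg hc.le p
      nlinarith
  have h2 := (h1.mono_set (Ioo_subset_Ioc_self)).const_mul (p + 1)⁻¹
  refine h2.mono' ?_ ?_
  · exact (Real.measurable_cos.pow_const p).aestronglyMeasurable
  · rw [ae_restrict_iff' measurableSet_Ioo]
    refine Filter.Eventually.of_forall fun y hy => ?_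
    have hc := cos_pos_of hy
    have h2 : Real.cos y ^ (p + 2) ≤ 1 :=
      Real.rpow_le_one hc.le (Real.cos_le_one y) (by linarith)
    have h3 : 0 ≤ Real.cos y ^ p := Real.rpow_nonneg hc.le p
    have hp1 : 0 < p + 1 := by linarith
    rw [Real.norm_of_nonneg h3, inv_mul_eq_div, le_div_iff₀ hp1]
    nlinarith

/-- `∫ cos ^ p` over `(-π/2, π/2)`. -/
noncomputable def wal (p : ℝ) : ℝ := ∫ y in Ioo (-(Real.pi / 2)) (Real.pi / 2), Real.cos y ^ p

theorem wal_rec {p : ℝ} (hp : -1 < p) : (p + 2) * wal (p + 2) = (p + 1) * wal p := by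
  have hpi := Real.pi_pos
  have hle : -(Real.pi / 2) ≤ Real.pi / 2 := by linarith
  have h1 := cos_int hp
  have h2 := cos_int (p := p + 2) (by linarith)
  have h3 : IntervalIntegrable (fun y => (p + 2) * Real.cos y ^ (p + 2) -
      (p + 1) * Real.cos y ^ p) volume (-(Real.pi / 2)) (Real.pi / 2) := by
    rw [intervalIntegrable_iff_integrableOn_Ioo_of_le hle]
    exact (h2.const_mul _).sub (h1.const_mul _)
  have h4 := intervalIntegral.integral_eq_sub_of_hasDerivAt_of_le hle
    (sincos_cont hp).continuousOn (fun y hy => sincos_deriv hy) h3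
  have h5 : Real.cos (-(Real.pi / 2)) ^ (p + 1) = 0 := by
    rw [Real.cos_neg, Real.cos_pi_div_two, Real.zero_rpow (by linarith)]
  have h6 : Real.cos (Real.pi / 2) ^ (p + 1) = 0 := by
    rw [Real.cos_pi_div_two, Real.zero_rpow (by linarith)]
  rw [h5, h6, mul_zero, mul_zero, sub_zero, intervalIntegral.integral_of_le hle,
    integral_Ioc_eq_integral_Ioo, integral_sub (h2.const_mul _) (h1.const_mul _),
    integral_const_mul, integral_const_mul] at h4
  unfold wal
  linarith

theorem wal_pos {p : ℝ} (hp : -1 < p) : 0 < wal p := by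
  unfold wal
  have hpi := Real.pi_pos
  have hle : -(Real.pi / 2) < Real.pi / 2 := by linarith
  rw [setIntegral_pos_iff_support_of_nonneg_ae]
  · refine lt_of_lt_of_le ?_ (measure_mono (s := Ioo (-(Real.pi / 2)) (Real.pi / 2)) ?_)
    · rw [Real.volume_Ioo]
      simp [hpi]
    · intro y hy
      exact ⟨(Real.rpow_pos_of_pos (cos_pos_of hy) p).ne', hy⟩
  · rw [Filter.EventuallyLE, ae_restrict_iff' measurableSet_Ioo]
    exact Filter.Eventually.of_forall fun y hy => Real.rpow_nonneg (cos_pos_of hy).le p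
  · exact cos_int hp

theorem wal_four {p : ℝ} (hp : -1 < p) :
    wal (p + 4) = (p + 1) * (p + 3) / ((p + 2) * (p + 4)) * wal p := by
  have h1 := wal_rec hp
  have h2 := wal_rec (p := p + 2) (by linarith)
  have e1 : p + 2 + 2 = p + 4 := by ring
  have e2 : p + 2 + 1 = p + 3 := by ring
  rw [e1, e2] at h2
  have h3 : 0 < p + 2 := by linarith
  have h4 : 0 < p + 4 := by linarith
  rw [div_mul_eq_mul_div, eq_div_iff (mul_pos h3 h4).ne']
  linear_combination (p + 2) * h2 + (p + 3) * h1

theorem lwal {p : ℝ} (hp : -1 < p) :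
    ∫⁻ y in Ioo (-(Real.pi / 2)) (Real.pi / 2), ENNReal.ofReal (Real.cos y ^ p) =
      ENNReal.ofReal (wal p) := by
  unfold wal
  rw [ofReal_integral_eq_lintegral_ofReal (cos_int hp)]
  rw [Filter.EventuallyLE, ae_restrict_iff' measurableSet_Ioo]
  exact Filter.Eventually.of_forall fun y hy => Real.rpow_nonneg (cos_pos_of hy).le p

/-- The weight `4 e^x / (e^(2x) + 1)`. -/
noncomputable def gw (x : ℝ) : ℝ := 4 * Real.exp x / (Real.exp (2 * x) + 1)

theorem gw_pos (x : ℝ) : 0 < gw x := by
  unfold gw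
  positivity

theorem gw_cont : Continuous gw := by
  unfold gw
  refine Continuous.div (by fun_prop) (by fun_prop) fun x => ?_
  positivity

theorem gw_le (x : ℝ) : gw x ≤ 4 * Real.exp (-x) ∧ gw x ≤ 4 * Real.exp x := by
  unfold gw
  have h1 := Real.exp_pos x
  have h2 := Real.exp_pos (2 * x)
  have h3 := Real.exp_pos (-x)
  have h4 : Real.exp (-x) * Real.exp (2 * x) = Real.exp x := by
    rw [← Real.exp_add]
    congr 1
    ring
  constructor
  · rw [div_le_iff₀ (by positivity)]
    nlinarith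
  · rw [div_le_iff₀ (by positivity)]
    nlinarith

theorem gw_fin {η : ℝ} (hη : 0 < η) : ∫⁻ x, ENNReal.ofReal (gw x ^ η) ≠ ∞ := by
  have hneg : (Iic (0 : ℝ)) ∪ Ioi 0 = univ := Iic_union_Ioi
  have h1 : IntegrableOn (fun x => 4 ^ η * Real.exp (η * x)) (Iic 0) :=
    (integrableOn_exp_mul_Iic hη 0).const_mul _
  have h2 : IntegrableOn (fun x => 4 ^ η * Real.exp (-η * x)) (Ioi 0) :=
    (integrableOn_exp_mul_Ioi (by linarith : -η < 0) 0).const_mul _
  have hm : AEStronglyMeasurable (fun x => gw x ^ η) :=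
    (gw_cont.measurable.pow_const η).aestronglyMeasurable
  have h3 : IntegrableOn (fun x => gw x ^ η) (Iic 0) := by
    refine h1.mono' hm.restrict (Filter.Eventually.of_forall fun x => ?_)
    rw [Real.norm_of_nonneg (Real.rpow_nonneg (gw_pos x).le η)]
    calc gw x ^ η ≤ (4 * Real.exp x) ^ η :=
          Real.rpow_le_rpow (gw_pos x).le (gw_le x).2 hη.le
      _ = 4 ^ η * Real.exp (η * x) := by
          rw [Real.mul_rpow (by norm_num) (Real.exp_pos x).le, ← Real.exp_mul, mul_comm x η]
  have h4 : IntegrableOn (fun x => gw x ^ η) (Ioi 0) := by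
    refine h2.mono' hm.restrict (Filter.Eventually.of_forall fun x => ?_)
    rw [Real.norm_of_nonneg (Real.rpow_nonneg (gw_pos x).le η)]
    calc gw x ^ η ≤ (4 * Real.exp (-x)) ^ η :=
          Real.rpow_le_rpow (gw_pos x).le (gw_le x).1 hη.le
      _ = 4 ^ η * Real.exp (-η * x) := by
          rw [Real.mul_rpow (by norm_num) (Real.exp_pos _).le, ← Real.exp_mul]
          congr 2
          ring
  have h5 : Integrable (fun x => gw x ^ η) := by
    rw [← integrableOn_univ, ← hneg]
    exact h3.union h4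
  have h6 := h5.lintegral_lt_top
  exact h6.ne

theorem gw_ne_zero (η : ℝ) : ∫⁻ x, ENNReal.ofReal (gw x ^ η) ≠ 0 := by
  intro h
  have hm : Measurable (fun x => ENNReal.ofReal (gw x ^ η)) :=
    ENNReal.measurable_ofReal.comp (gw_cont.measurable.pow_const η)
  rw [lintegral_eq_zero_iff hm] at h
  have h2 : ∀ᵐ x : ℝ, False := by
    filter_upwards [h] with x hx
    have h3 : ENNReal.ofReal (gw x ^ η) = 0 := hx
    rw [ENNReal.ofReal_eq_zero] at h3
    exact absurd (Real.rpow_pos_of_pos (gw_pos x) η) (not_lt.mpr h3)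
  have h4 : (volume : Measure ℝ) univ = 0 := by
    have h5 := ae_iff.mp h2
    simp at h5
  simp at h4

end Pool.Agent.Lib.MP_85878b_an
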