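import Mathlib

/-! # Multiplier norms of Schwarzian derivatives on Bergman spaces: definitions -/

set_option autoImplicit false

namespace Pool.Agent.Lib.MP_85878b_an

open MeasureTheory Metric Set
open scoped ENNReal

/-- The class `S`: `f` is univalent on the open unit disc, `f(0) = 0`, `f'(0) = 1`. -/
structure ClassS (f : ℂ → ℂ) : Prop where
  diff : DifferentiableOn ℂ f (ball 0 1)
  inj : InjOn f (ball 0 1)
  map_zero : f 0 = 0
  deriv_zero : deriv f 0 = 1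

/-- The Schwarzian derivative `(f''/f')' - (1/2) (f''/f')²`. -/
noncomputable def schw (f : ℂ → ℂ) (z : ℂ) : ℂ :=
  deriv (fun w => deriv (deriv f) w / deriv f w) z - 1 / 2 * (deriv (deriv f) z / deriv f z) ^ 2

/-- The norm `sup |ψ(z)| (1 - |z|²)²` over the open unit disc, in `[0, ∞]`. -/
noncomputable def normE (ψ : ℂ → ℂ) : ℝ≥0∞ :=
  ⨆ z ∈ ball (0 : ℂ) 1, ENNReal.ofReal (‖ψ z‖ * (1 - ‖z‖ ^ 2) ^ 2)

/-- The squared norm of the weighted Bergman space,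
`((a + 1) / π) ∫ |φ(z)|² (1 - |z|²)^a dx dy` over the open unit disc, in `[0, ∞]`. -/
noncomputable def berg (a : ℝ) (φ : ℂ → ℂ) : ℝ≥0∞ :=
  ENNReal.ofReal ((a + 1) / Real.pi) *
    ∫⁻ z in ball (0 : ℂ) 1, ENNReal.ofReal (‖φ z‖ ^ 2 * (1 - ‖z‖ ^ 2) ^ a)

/-- The squared norm of the multiplication by `ψ` from the Bergman space with index `a` to the one
with index `a + 4`: the supremum of `berg (a + 4) (ψ φ)` over the `φ`, holomorphic on the open unit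
disc, with `berg a φ = 1`. -/
noncomputable def mult (a : ℝ) (ψ : ℂ → ℂ) : ℝ≥0∞ :=
  ⨆ φ ∈ {φ : ℂ → ℂ | DifferentiableOn ℂ φ (ball 0 1) ∧ berg a φ = 1},
    berg (a + 4) (fun z => ψ z * φ z)

theorem one_sub_pos {z : ℂ} (hz : z ∈ ball (0 : ℂ) 1) : 0 < 1 - ‖z‖ ^ 2 := by
  rw [mem_ball_zero_iff] at hz
  have := norm_nonneg z
  nlinarith

theorem berg_congr {a : ℝ} {φ χ : ℂ → ℂ} (h : ∀ z ∈ ball (0 : ℂ) 1, ‖φ z‖ = ‖χ z‖) :
    berg a φ = berg a χ := by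
  unfold berg
  congr 1
  refine setLIntegral_congr_fun measurableSet_ball fun z hz => ?_
  simp only [h z hz]

theorem berg_smul (a : ℝ) (c : ℂ) (φ : ℂ → ℂ) :
    berg a (fun z => c * φ z) = ENNReal.ofReal (‖c‖ ^ 2) * berg a φ := by
  unfold berg
  rw [mul_left_comm]
  congr 1
  rw [← lintegral_const_mul' _ _ ENNReal.ofReal_ne_top]
  refine lintegral_congr fun z => ?_
  rw [← ENNReal.ofReal_mul (by positivity), norm_mul]
  congr 1
  ring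

theorem berg_le_mult {a : ℝ} {φ ψ : ℂ → ℂ} (hφ : DifferentiableOn ℂ φ (ball 0 1))
    (h0 : berg a φ ≠ 0) (h1 : berg a φ ≠ ∞) :
    berg (a + 4) (fun z => ψ z * φ z) ≤ mult a ψ * berg a φ := by
  obtain ⟨B, hB⟩ : ∃ B : ℝ, B = (berg a φ).toReal := ⟨_, rfl⟩
  have hBpos : 0 < B := by
    rw [hB]
    exact ENNReal.toReal_pos h0 h1
  have hBeq : berg a φ = ENNReal.ofReal B := by
    rw [hB, ENNReal.ofReal_toReal h1]
  obtain ⟨c, hc⟩ : ∃ c : ℂ, c = ((Real.sqrt B)⁻¹ : ℝ) := ⟨_, rfl⟩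
  have hcn : ‖c‖ ^ 2 = B⁻¹ := by
    rw [hc, Complex.norm_real, Real.norm_eq_abs, sq_abs, inv_pow, Real.sq_sqrt hBpos.le]
  have hmem : (fun z => c * φ z) ∈
      {φ : ℂ → ℂ | DifferentiableOn ℂ φ (ball 0 1) ∧ berg a φ = 1} := by
    refine ⟨hφ.const_mul c, ?_⟩
    rw [berg_smul, hcn, hBeq, ← ENNReal.ofReal_mul (by positivity), inv_mul_cancel₀ hBpos.ne',
      ENNReal.ofReal_one]
  have h2 : berg (a + 4) (fun z => ψ z * (c * φ z)) ≤ mult a ψ :=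
    le_iSup₂_of_le (fun z => c * φ z) hmem le_rfl
  have h3 : (fun z => ψ z * (c * φ z)) = fun z => c * (ψ z * φ z) := by
    funext z
    ring
  rw [h3, berg_smul, hcn] at h2
  calc berg (a + 4) (fun z => ψ z * φ z)
      = ENNReal.ofReal B * (ENNReal.ofReal B⁻¹ * berg (a + 4) (fun z => ψ z * φ z)) := by
        rw [← mul_assoc, ← ENNReal.ofReal_mul hBpos.le, mul_inv_cancel₀ hBpos.ne',
          ENNReal.ofReal_one, one_mul]
    _ ≤ ENNReal.ofReal B * mult a ψ := mul_le_mul_right h2 _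
    _ = _ := by rw [hBeq, mul_comm]

theorem mult_congr {a : ℝ} {ψ χ : ℂ → ℂ} (h : ∀ z ∈ ball (0 : ℂ) 1, ‖ψ z‖ = ‖χ z‖) :
    mult a ψ = mult a χ := by
  unfold mult
  refine iSup_congr fun φ => iSup_congr fun _ => berg_congr fun z hz => ?_
  rw [norm_mul, norm_mul, h z hz]

theorem mult_smul (a : ℝ) (c : ℂ) (ψ : ℂ → ℂ) :
    mult a (fun z => c * ψ z) = ENNReal.ofReal (‖c‖ ^ 2) * mult a ψ := by
  unfold mult
  rw [ENNReal.mul_iSup]
  refine iSup_congr fun φ => ?_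
  rw [ENNReal.mul_iSup]
  refine iSup_congr fun _ => ?_
  rw [← berg_smul]
  congr 1
  funext z
  ring

/-- The pointwise bound for the multiplier norm. -/
theorem mult_le {a : ℝ} (ha : -1 < a) (ψ : ℂ → ℂ) :
    mult a ψ ≤ ENNReal.ofReal ((a + 5) / (a + 1)) * normE ψ ^ 2 := by
  unfold mult
  refine iSup₂_le fun φ hφ => ?_
  have h1 : berg a φ = 1 := hφ.2
  have hpt : ∀ z ∈ ball (0 : ℂ) 1,
      ENNReal.ofReal (‖ψ z * φ z‖ ^ 2 * (1 - ‖z‖ ^ 2) ^ (a + 4)) ≤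
        normE ψ ^ 2 * ENNReal.ofReal (‖φ z‖ ^ 2 * (1 - ‖z‖ ^ 2) ^ a) := by
    intro z hz
    have hp := one_sub_pos hz
    have h2 : ENNReal.ofReal (‖ψ z‖ * (1 - ‖z‖ ^ 2) ^ 2) ≤ normE ψ :=
      le_iSup₂_of_le z hz le_rfl
    have h3 : ‖ψ z * φ z‖ ^ 2 * (1 - ‖z‖ ^ 2) ^ (a + 4) =
        (‖ψ z‖ * (1 - ‖z‖ ^ 2) ^ 2) ^ 2 * (‖φ z‖ ^ 2 * (1 - ‖z‖ ^ 2) ^ a) := by
      rw [Real.rpow_add hp, norm_mul]
      have : (1 - ‖z‖ ^ 2) ^ (4 : ℝ) = (1 - ‖z‖ ^ 2) ^ 4 := by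
        rw [← Real.rpow_natCast]
        norm_num
      rw [this]
      ring
    rw [h3, ENNReal.ofReal_mul (by positivity), ENNReal.ofReal_pow (by positivity)]
    gcongr
  unfold berg at h1 ⊢
  have h4 : ∫⁻ z in ball (0 : ℂ) 1, ENNReal.ofReal (‖ψ z * φ z‖ ^ 2 * (1 - ‖z‖ ^ 2) ^ (a + 4)) ≤
      normE ψ ^ 2 * ∫⁻ z in ball (0 : ℂ) 1, ENNReal.ofReal (‖φ z‖ ^ 2 * (1 - ‖z‖ ^ 2) ^ a) := by
    have hm : Measurable fun z : ℂ => (1 - ‖z‖ ^ 2) ^ a :=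
      (measurable_const.sub (measurable_norm.pow_const 2)).pow_const a
    have hφm : AEMeasurable (fun z : ℂ => ENNReal.ofReal (‖φ z‖ ^ 2 * (1 - ‖z‖ ^ 2) ^ a))
        (volume.restrict (ball (0 : ℂ) 1)) := by
      refine ENNReal.measurable_ofReal.comp_aemeasurable ?_
      refine AEMeasurable.mul ?_ hm.aemeasurable
      exact ((hφ.1.continuousOn.aemeasurable measurableSet_ball).norm).pow_const 2
    rw [← lintegral_const_mul'' _ hφm]
    exact setLIntegral_mono_ae' measurableSet_ball (Filter.Eventually.of_forall hpt)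
  have h5 : ENNReal.ofReal ((a + 4 + 1) / Real.pi) =
      ENNReal.ofReal ((a + 5) / (a + 1)) * ENNReal.ofReal ((a + 1) / Real.pi) := by
    have : 0 < a + 1 := by linarith
    rw [← ENNReal.ofReal_mul (by apply div_nonneg <;> linarith)]
    congr 1
    field_simp
    ring
  calc _ ≤ ENNReal.ofReal ((a + 4 + 1) / Real.pi) * (normE ψ ^ 2 *
        ∫⁻ z in ball (0 : ℂ) 1, ENNReal.ofReal (‖φ z‖ ^ 2 * (1 - ‖z‖ ^ 2) ^ a)) := by
        gcongr
    _ = ENNReal.ofReal ((a + 5) / (a + 1)) * normE ψ ^ 2 * (ENNReal.ofReal ((a + 1) / Real.pi) *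
        ∫⁻ z in ball (0 : ℂ) 1, ENNReal.ofReal (‖φ z‖ ^ 2 * (1 - ‖z‖ ^ 2) ^ a)) := by
        rw [h5]; ring
    _ = _ := by rw [h1, mul_one]

end Pool.Agent.Lib.MP_85878b_an
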