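import Pool.Agent.Lib.MP_85878b_an.Schw

/-! # The Koebe function and the variation `w ↦ w + τ/(w - w₀)` -/

set_option autoImplicit false

namespace Pool.Agent.Lib.MP_85878b_an

open MeasureTheory Metric Set Filter Topology
open scoped ENNReal

/-- The Koebe function. -/
noncomputable def koebe (z : ℂ) : ℂ := z / (1 - z) ^ 2

theorem ball_ne {z : ℂ} (hz : z ∈ ball (0 : ℂ) 1) : 1 - z ≠ 0 ∧ 1 + z ≠ 0 := by
  rw [mem_ball_zero_iff] at hz
  constructor
  · intro h
    have : z = 1 := by linear_combination -h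
    rw [this, norm_one] at hz
    exact lt_irrefl _ hz
  · intro h
    have : z = -1 := by linear_combination h
    rw [this, norm_neg, norm_one] at hz
    exact lt_irrefl _ hz

theorem koebe_d1 {z : ℂ} (hz : z ∈ ball (0 : ℂ) 1) :
    HasDerivAt koebe ((1 + z) / (1 - z) ^ 3) z := by
  have h1 := (ball_ne hz).1
  have h2 : HasDerivAt (fun w : ℂ => (1 - w) ^ 2) (2 * (1 - z) * (-1)) z := by
    have h3 : HasDerivAt (fun w : ℂ => 1 - w) (-1) z := by
      simpa using (hasDerivAt_id z).const_sub 1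
    exact (h3.fun_pow 2).congr_deriv (by push_cast; ring)
  have h4 := (hasDerivAt_id z).div h2 (pow_ne_zero 2 h1)
  refine h4.congr_deriv ?_
  simp only [id]
  field_simp
  ring

theorem koebe_d2 {z : ℂ} (hz : z ∈ ball (0 : ℂ) 1) :
    HasDerivAt (deriv koebe) ((4 + 2 * z) / (1 - z) ^ 4) z := by
  have h1 := (ball_ne hz).1
  have h2 : HasDerivAt (fun w : ℂ => (1 - w) ^ 3) (3 * (1 - z) ^ 2 * (-1)) z := by
    have h3 : HasDerivAt (fun w : ℂ => 1 - w) (-1) z := by
      simpa using (hasDerivAt_id z).const_sub 1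
    exact (h3.fun_pow 3).congr_deriv (by push_cast; ring)
  have h5 : HasDerivAt (fun w : ℂ => 1 + w) 1 z := by
    simpa using (hasDerivAt_id z).const_add 1
  have h4 := h5.div h2 (pow_ne_zero 3 h1)
  have h6 : deriv koebe =ᶠ[𝓝 z] fun w => (1 + w) / (1 - w) ^ 3 := by
    filter_upwards [isOpen_ball.mem_nhds hz] with w hw
    exact (koebe_d1 hw).deriv
  refine (h4.congr_of_eventuallyEq h6).congr_deriv ?_
  field_simp
  ring

theorem koebe_class : ClassS koebe := by
  have h0 : (0 : ℂ) ∈ ball (0 : ℂ) 1 := mem_ball_self one_pos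
  refine ⟨fun z hz => (koebe_d1 hz).differentiableAt.differentiableWithinAt, ?_, ?_, ?_⟩
  · intro x hx y hy hxy
    have h1 := (ball_ne hx).1
    have h2 := (ball_ne hy).1
    unfold koebe at hxy
    rw [div_eq_div_iff (pow_ne_zero 2 h1) (pow_ne_zero 2 h2)] at hxy
    have h3 : (x - y) * (1 - x * y) = 0 := by linear_combination hxy
    rcases mul_eq_zero.mp h3 with h4 | h4
    · exact sub_eq_zero.mp h4
    · exfalso
      rw [mem_ball_zero_iff] at hx hy
      have h5 : x * y = 1 := by linear_combination -h4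
      have h6 := congrArg norm h5
      rw [norm_mul, norm_one] at h6
      nlinarith [norm_nonneg x, norm_nonneg y]
  · simp [koebe]
  · rw [(koebe_d1 h0).deriv]
    simp

theorem schw_koebe {z : ℂ} (hz : z ∈ ball (0 : ℂ) 1) : schw koebe z = -6 / (1 - z ^ 2) ^ 2 := by
  have hz1 := (ball_ne hz).1
  have hz2 := (ball_ne hz).2
  have hp : (fun w => deriv (deriv koebe) w / deriv koebe w) =ᶠ[𝓝 z]
      fun w => (4 + 2 * w) / ((1 - w) * (1 + w)) := by
    filter_upwards [isOpen_ball.mem_nhds hz] with w hw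
    have h1 := (ball_ne hw).1
    have h2 := (ball_ne hw).2
    rw [(koebe_d1 hw).deriv, (koebe_d2 hw).deriv]
    field_simp
  have hq : HasDerivAt (fun w : ℂ => (4 + 2 * w) / ((1 - w) * (1 + w)))
      ((2 * ((1 - z) * (1 + z)) - (4 + 2 * z) * ((-1) * (1 + z) + (1 - z) * 1)) /
        ((1 - z) * (1 + z)) ^ 2) z := by
    have h1 : HasDerivAt (fun w : ℂ => 1 - w) (-1) z := by
      simpa using (hasDerivAt_id z).const_sub 1
    have h2 : HasDerivAt (fun w : ℂ => 1 + w) 1 z := by
      simpa using (hasDerivAt_id z).const_add 1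
    have h3 : HasDerivAt (fun w : ℂ => 4 + 2 * w) 2 z := by
      simpa using ((hasDerivAt_id z).const_mul 2).const_add 4
    exact h3.div (h1.mul h2) (mul_ne_zero hz1 hz2)
  rw [schw_of hp hq]
  have e : (1 - z ^ 2 : ℂ) = (1 - z) * (1 + z) := by ring
  rw [e]
  field_simp
  ring

/-- The variation of the Schwarzian under `w ↦ w + τ/(w - w₀)`. -/
theorem schw_var {f : ℂ → ℂ} (hd : DifferentiableOn ℂ f (ball 0 1)) (w₀ τ : ℂ)
    (hf : ∀ z ∈ ball (0 : ℂ) 1, deriv f z ≠ 0) (hv : ∀ z ∈ ball (0 : ℂ) 1, f z - w₀ ≠ 0)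
    (hτ : ∀ z ∈ ball (0 : ℂ) 1, (f z - w₀) ^ 2 - τ ≠ 0) {z : ℂ} (hz : z ∈ ball (0 : ℂ) 1) :
    schw (fun u => f u + τ / (f u - w₀)) z =
      schw f z - 6 * τ * deriv f z ^ 2 / ((f z - w₀) ^ 2 - τ) ^ 2 := by
  have hd1 : DifferentiableOn ℂ (deriv f) (ball 0 1) := hd.deriv isOpen_ball
  have hd2 : DifferentiableOn ℂ (deriv (deriv f)) (ball 0 1) := hd1.deriv isOpen_ball
  have hF1 : ∀ w ∈ ball (0 : ℂ) 1, HasDerivAt (fun u => f u + τ / (f u - w₀))
      (deriv f w * (1 - τ / (f w - w₀) ^ 2)) w := by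
    intro w hw
    have h1 := d1 isOpen_ball hd hw
    have h2 : HasDerivAt (fun u => τ / (f u - w₀))
        ((0 * (f w - w₀) - τ * deriv f w) / (f w - w₀) ^ 2) w :=
      (hasDerivAt_const w τ).div (h1.sub_const w₀) (hv w hw)
    refine (h1.add h2).congr_deriv ?_
    ring
  have hF2 : ∀ w ∈ ball (0 : ℂ) 1, HasDerivAt (deriv (fun u => f u + τ / (f u - w₀)))
      (deriv (deriv f) w * (1 - τ / (f w - w₀) ^ 2) +
        deriv f w * (2 * τ * deriv f w / (f w - w₀) ^ 3)) w := by
    intro w hw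
    have hvw := hv w hw
    have h1 := d1 isOpen_ball hd hw
    have h2 := d1 isOpen_ball hd1 hw
    have h3 : HasDerivAt (fun u => 1 - τ / (f u - w₀) ^ 2)
        (2 * τ * deriv f w / (f w - w₀) ^ 3) w := by
      have h4 : HasDerivAt (fun u => (f u - w₀) ^ 2) (2 * (f w - w₀) * deriv f w) w := by
        exact ((h1.sub_const w₀).fun_pow 2).congr_deriv (by push_cast; ring)
      have h5 := ((hasDerivAt_const w τ).div h4 (pow_ne_zero 2 hvw)).const_sub 1
      refine h5.congr_deriv ?_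
      field_simp
      ring
    have h6 : deriv (fun u => f u + τ / (f u - w₀)) =ᶠ[𝓝 w]
        fun u => deriv f u * (1 - τ / (f u - w₀) ^ 2) := by
      filter_upwards [isOpen_ball.mem_nhds hw] with u hu
      exact (hF1 u hu).deriv
    exact (h2.mul h3).congr_of_eventuallyEq h6
  have hp : (fun w => deriv (deriv (fun u => f u + τ / (f u - w₀))) w /
      deriv (fun u => f u + τ / (f u - w₀)) w) =ᶠ[𝓝 z]
      fun w => deriv (deriv f) w / deriv f w +
        2 * τ * deriv f w / ((f w - w₀) * ((f w - w₀) ^ 2 - τ)) := by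
    filter_upwards [isOpen_ball.mem_nhds hz] with w hw
    rw [(hF1 w hw).deriv, (hF2 w hw).deriv]
    have h1 := hf w hw
    have h2 := hv w hw
    have h3 := hτ w hw
    have e : 1 - τ / (f w - w₀) ^ 2 = ((f w - w₀) ^ 2 - τ) / (f w - w₀) ^ 2 := by
      field_simp
    rw [e]
    generalize f w - w₀ = v at *
    field_simp
  have hzf := hf z hz
  have hzv := hv z hz
  have hzτ := hτ z hz
  have hP : HasDerivAt (fun w => deriv (deriv f) w / deriv f w)
      (deriv (fun w => deriv (deriv f) w / deriv f w) z) z :=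
    ((d1 isOpen_ball hd2 hz).div (d1 isOpen_ball hd1 hz) hzf).differentiableAt.hasDerivAt
  have hC : HasDerivAt (fun w => 2 * τ * deriv f w / ((f w - w₀) * ((f w - w₀) ^ 2 - τ)))
      ((2 * τ * deriv (deriv f) z * ((f z - w₀) * ((f z - w₀) ^ 2 - τ)) -
        2 * τ * deriv f z * (deriv f z * ((f z - w₀) ^ 2 - τ) +
          (f z - w₀) * (2 * (f z - w₀) * deriv f z))) /
        ((f z - w₀) * ((f z - w₀) ^ 2 - τ)) ^ 2) z := by
    have h1 := (d1 isOpen_ball hd hz).sub_const w₀
    have h2 : HasDerivAt (fun u => (f u - w₀) ^ 2) (2 * (f z - w₀) * deriv f z) z := by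
      exact (h1.fun_pow 2).congr_deriv (by push_cast; ring)
    exact ((d1 isOpen_ball hd1 hz).const_mul (2 * τ)).div (h1.mul (h2.sub_const τ))
      (mul_ne_zero hzv hzτ)
  rw [schw_of hp (hP.add hC)]
  unfold schw
  generalize deriv (fun w => deriv (deriv f) w / deriv f w) z = A at *
  generalize deriv (deriv f) z = b at *
  generalize f z - w₀ = v at *
  generalize deriv f z = c at *
  field_simp
  ring

end Pool.Agent.Lib.MP_85878b_an
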