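import Pool.Agent.Lib.MP_85878b_an.Mean
import Pool.Agent.Lib.MP_85878b_an.Koebe

/-! # The energy inequality for maximisers -/

set_option autoImplicit false

namespace Pool.Agent.Lib.MP_85878b_an

open MeasureTheory Metric Set Filter Topology
open scoped ENNReal

theorem schw_diff {f : ℂ → ℂ} (hd : DifferentiableOn ℂ f (ball 0 1)) (hi : InjOn f (ball 0 1)) :
    DifferentiableOn ℂ (schw f) (ball 0 1) := by
  have hd1 := hd.deriv isOpen_ball
  have hd2 := hd1.deriv isOpen_ball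
  have hP : DifferentiableOn ℂ (fun w => deriv (deriv f) w / deriv f w) (ball 0 1) :=
    hd2.div hd1 fun z hz => CcaPl.deriv_ne_zero_of_injOn f _ isOpen_ball hd hi z hz
  exact (hP.deriv isOpen_ball).sub ((hP.pow 2).const_mul _)

/-- The identity theorem with an almost everywhere hypothesis. -/
theorem eq_of_ae {ψ χ φ : ℂ → ℂ} (hψ : DifferentiableOn ℂ ψ (ball 0 1))
    (hχ : DifferentiableOn ℂ χ (ball 0 1)) (hφ : DifferentiableOn ℂ φ (ball 0 1))
    (hφ0 : ∃ z ∈ ball (0 : ℂ) 1, φ z ≠ 0)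
    (h : ∀ᵐ z ∂(volume.restrict (ball (0 : ℂ) 1)), (ψ z - χ z) * φ z = 0) :
    ∀ z ∈ ball (0 : ℂ) 1, ψ z = χ z := by
  have h1 : EqOn (fun z => (ψ z - χ z) * φ z) (fun _ => 0) (ball (0 : ℂ) 1) := by
    refine Measure.eqOn_open_of_ae_eq (μ := volume) h isOpen_ball ?_ continuousOn_const
    exact ((hψ.sub hχ).mul hφ).continuousOn
  obtain ⟨z₁, hz₁, hφ1⟩ := hφ0
  have h2 : ψ =ᶠ[𝓝 z₁] χ := by
    have h3 : ContinuousAt φ z₁ := (hφ.differentiableAt (isOpen_ball.mem_nhds hz₁)).continuousAt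
    filter_upwards [isOpen_ball.mem_nhds hz₁, h3.eventually_ne hφ1] with z hz hφz
    have h4 : (ψ z - χ z) * φ z = 0 := h1 hz
    exact sub_eq_zero.mp ((mul_eq_zero.mp h4).resolve_right hφz)
  have h5 : EqOn ψ χ (ball (0 : ℂ) 1) :=
    AnalyticOnNhd.eqOn_of_preconnected_of_eventuallyEq (hψ.analyticOnNhd isOpen_ball)
      (hχ.analyticOnNhd isOpen_ball) (convex_ball (0 : ℂ) 1).isPreconnected hz₁ h2
  exact fun z hz => h5 hz

theorem exists_ne_zero {a : ℝ} {φ : ℂ → ℂ} (h : berg a φ = 1) :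
    ∃ z ∈ ball (0 : ℂ) 1, φ z ≠ 0 := by
  by_contra hcon
  push Not at hcon
  have h1 : berg a φ = berg a (fun z => (0 : ℂ) * φ z) := by
    refine berg_congr fun z hz => ?_
    rw [hcon z hz, mul_zero]
  rw [h1, berg_smul] at h
  simp at h

theorem indicator_meas {k : ℂ → ℂ} (hk : DifferentiableOn ℂ k (ball 0 1)) :
    Measurable ((ball (0 : ℂ) 1).indicator k) := by
  have h1 : Measurable fun z : ball (0 : ℂ) 1 => k z :=
    (continuousOn_iff_continuous_domRestrict.mp hk.continuousOn).measurable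
  refine measurable_of_restrict_of_restrict_compl (s := ball (0 : ℂ) 1) measurableSet_ball ?_ ?_
  · have : (ball (0 : ℂ) 1).domRestrict ((ball (0 : ℂ) 1).indicator k) =
        fun z : ball (0 : ℂ) 1 => k z := by
      funext z
      exact indicator_of_mem z.2 _
    rw [this]
    exact h1
  · have : ((ball (0 : ℂ) 1)ᶜ).domRestrict ((ball (0 : ℂ) 1).indicator k) = fun _ => 0 := by
      funext z
      exact indicator_of_notMem z.2 _
    rw [this]
    exact measurable_const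

/-- A holomorphic disc of Schwarzian derivatives, centred at the Schwarzian derivative of `f`. -/
def HolDisc (f : ℂ → ℂ) (g : ℂ → ℂ → ℂ) : Prop :=
  (∀ t ∈ ball (0 : ℂ) 1, ClassS (g t)) ∧
  (∀ z ∈ ball (0 : ℂ) 1, DifferentiableOn ℂ (fun t => schw (g t) z) (ball 0 1)) ∧
  ∀ z ∈ ball (0 : ℂ) 1, schw (g 0) z = schw f z

section

variable {f : ℂ → ℂ} {g : ℂ → ℂ → ℂ} {r : ℝ}

theorem joint_meas (hr0 : 0 < r) (hr1 : r < 1) (hg : HolDisc f g) :
    Measurable fun p : ℝ × ℂ =>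
      (ball (0 : ℂ) 1).indicator (schw (g (circleMap 0 r p.1))) p.2 := by
  obtain ⟨ψ, hψ⟩ : ∃ ψ : ℝ → ℂ → ℂ, ψ = fun θ => (ball (0 : ℂ) 1).indicator
    (schw (g (circleMap 0 r θ))) := ⟨_, rfl⟩
  have hψin : ∀ θ, ∀ z ∈ ball (0 : ℂ) 1, ψ θ z = schw (g (circleMap 0 r θ)) z := by
    intro θ z hz
    rw [hψ]
    exact indicator_of_mem hz _
  have hgs : ∀ θ : ℝ, DifferentiableOn ℂ (schw (g (circleMap 0 r θ))) (ball 0 1) := fun θ =>
    schw_diff (hg.1 _ (circle_mem hr0 hr1 θ)).diff (hg.1 _ (circle_mem hr0 hr1 θ)).inj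
  have hψc : ∀ z, Continuous fun θ => ψ θ z := by
    intro z
    by_cases hz : z ∈ ball (0 : ℂ) 1
    · have : (fun θ => ψ θ z) = fun θ => schw (g (circleMap 0 r θ)) z := by
        funext θ
        exact hψin θ z hz
      rw [this]
      exact circle_cont (hg.2.1 z hz) hr0 hr1
    · have : (fun θ => ψ θ z) = fun _ => 0 := by
        funext θ
        rw [hψ]
        exact indicator_of_notMem hz _
      rw [this]
      exact continuous_const
  have hψm : ∀ θ, StronglyMeasurable (ψ θ) := by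
    intro θ
    rw [hψ]
    exact (indicator_meas (hgs θ)).stronglyMeasurable
  have h1 : Measurable (Function.uncurry ψ) :=
    (stronglyMeasurable_uncurry_of_continuous_of_stronglyMeasurable hψc hψm).measurable
  rw [hψ] at h1
  exact h1

/-- The mean square over the circle of radius `r`. -/
noncomputable def msq (f : ℂ → ℂ) (g : ℂ → ℂ → ℂ) (r : ℝ) (z : ℂ) : ℝ≥0∞ :=
  ∫⁻ θ in Ioo 0 (2 * Real.pi), ENNReal.ofReal (‖schw (g (circleMap 0 r θ)) z - schw f z‖ ^ 2)

theorem msq_aemeas (hr0 : 0 < r) (hr1 : r < 1) (hf : ClassS f) (hg : HolDisc f g) :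
    AEMeasurable (msq f g r) (volume.restrict (ball (0 : ℂ) 1)) := by
  have hj := joint_meas hr0 hr1 hg
  have hχm : Measurable ((ball (0 : ℂ) 1).indicator (schw f)) :=
    indicator_meas (schw_diff hf.diff hf.inj)
  have h1 : Measurable fun p : ℂ × ℝ => ENNReal.ofReal
      (‖(ball (0 : ℂ) 1).indicator (schw (g (circleMap 0 r p.2))) p.1 -
        (ball (0 : ℂ) 1).indicator (schw f) p.1‖ ^ 2) := by
    have h2 := hj.comp (measurable_swap (α := ℂ) (β := ℝ))
    exact ENNReal.measurable_ofReal.comp ((h2.sub (hχm.comp measurable_fst)).norm.pow_const 2)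
  have h3 : Measurable fun z : ℂ => ∫⁻ θ in Ioo 0 (2 * Real.pi), ENNReal.ofReal
      (‖(ball (0 : ℂ) 1).indicator (schw (g (circleMap 0 r θ))) z -
        (ball (0 : ℂ) 1).indicator (schw f) z‖ ^ 2) := h1.lintegral_prod_right'
  refine ⟨_, h3, ?_⟩
  filter_upwards [ae_restrict_mem measurableSet_ball] with z hz
  unfold msq
  refine lintegral_congr fun θ => ?_
  rw [indicator_of_mem hz, indicator_of_mem hz]

/-- The energy inequality: `M` bounds the multiplier norms of the class `S`; a holomorphic disc of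
Schwarzian derivatives centred at `S_f`, and a function of norm one. -/
theorem energy {a : ℝ} {M : ℝ≥0∞} (hr0 : 0 < r) (hr1 : r < 1) (hf : ClassS f)
    (hmax : ∀ g, ClassS g → mult a (schw g) ≤ M)
    {φ : ℂ → ℂ} (hφ : DifferentiableOn ℂ φ (ball 0 1)) (hφ1 : berg a φ = 1)
    (hg : HolDisc f g) :
    ENNReal.ofReal (2 * Real.pi) * berg (a + 4) (fun z => schw f z * φ z) +
      ENNReal.ofReal ((a + 4 + 1) / Real.pi) * ∫⁻ z in ball (0 : ℂ) 1,
        ENNReal.ofReal (‖φ z‖ ^ 2 * (1 - ‖z‖ ^ 2) ^ (a + 4)) * msq f g r z ≤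
      ENNReal.ofReal (2 * Real.pi) * M := by
  have hpi := Real.pi_pos
  obtain ⟨ψ, hψ⟩ : ∃ ψ : ℝ → ℂ → ℂ, ψ = fun θ => (ball (0 : ℂ) 1).indicator
    (schw (g (circleMap 0 r θ))) := ⟨_, rfl⟩
  have hψin : ∀ θ, ∀ z ∈ ball (0 : ℂ) 1, ψ θ z = schw (g (circleMap 0 r θ)) z := by
    intro θ z hz
    rw [hψ]
    exact indicator_of_mem hz _
  have hjoint : Measurable (Function.uncurry ψ) := by
    rw [hψ]
    exact joint_meas hr0 hr1 hg
  obtain ⟨W, hW⟩ : ∃ W : ℂ → ℝ≥0∞, W = fun z => ENNReal.ofReal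
    (‖(ball (0 : ℂ) 1).indicator φ z‖ ^ 2 * (1 - ‖z‖ ^ 2) ^ (a + 4)) := ⟨_, rfl⟩
  have hWm : Measurable W := by
    rw [hW]
    refine ENNReal.measurable_ofReal.comp ?_
    exact (((indicator_meas hφ).norm).pow_const 2).mul
      ((measurable_const.sub (measurable_norm.pow_const 2)).pow_const (a + 4))
  have hWin : ∀ z ∈ ball (0 : ℂ) 1,
      W z = ENNReal.ofReal (‖φ z‖ ^ 2 * (1 - ‖z‖ ^ 2) ^ (a + 4)) := by
    intro z hz
    rw [hW]
    simp only [indicator_of_mem hz]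
  obtain ⟨c, hc⟩ : ∃ c, c = ENNReal.ofReal ((a + 4 + 1) / Real.pi) := ⟨_, rfl⟩
  have hctop : c ≠ ∞ := by rw [hc]; exact ENNReal.ofReal_ne_top
  have hberg : ∀ k : ℂ → ℂ, berg (a + 4) (fun z => k z * φ z) =
      c * ∫⁻ z in ball (0 : ℂ) 1, W z * ENNReal.ofReal (‖k z‖ ^ 2) := by
    intro k
    unfold berg
    rw [hc]
    congr 1
    refine setLIntegral_congr_fun measurableSet_ball fun z hz => ?_
    have hp := one_sub_pos hz
    rw [hWin z hz, ← ENNReal.ofReal_mul (by positivity), norm_mul]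
    congr 1
    ring
  have hm1 : Measurable fun p : ℂ × ℝ => W p.1 * ENNReal.ofReal (‖ψ p.2 p.1‖ ^ 2) := by
    have h1 : Measurable fun p : ℂ × ℝ => ψ p.2 p.1 := hjoint.comp measurable_swap
    exact (hWm.comp measurable_fst).mul (ENNReal.measurable_ofReal.comp (h1.norm.pow_const 2))
  have hA : ∫⁻ z in ball (0 : ℂ) 1, ∫⁻ θ in Ioo 0 (2 * Real.pi),
      W z * ENNReal.ofReal (‖ψ θ z‖ ^ 2) = ∫⁻ θ in Ioo 0 (2 * Real.pi), ∫⁻ z in ball (0 : ℂ) 1,
      W z * ENNReal.ofReal (‖ψ θ z‖ ^ 2) := lintegral_lintegral_swap hm1.aemeasurable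
  have hB : c * ∫⁻ θ in Ioo 0 (2 * Real.pi), ∫⁻ z in ball (0 : ℂ) 1,
      W z * ENNReal.ofReal (‖ψ θ z‖ ^ 2) ≤ ENNReal.ofReal (2 * Real.pi) * M := by
    rw [← lintegral_const_mul' _ _ hctop]
    calc ∫⁻ θ in Ioo 0 (2 * Real.pi), c * ∫⁻ z in ball (0 : ℂ) 1,
          W z * ENNReal.ofReal (‖ψ θ z‖ ^ 2)
        ≤ ∫⁻ _ in Ioo 0 (2 * Real.pi), M := by
          refine lintegral_mono fun θ => ?_
          have h1 : c * ∫⁻ z in ball (0 : ℂ) 1, W z * ENNReal.ofReal (‖ψ θ z‖ ^ 2) =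
              berg (a + 4) (fun z => schw (g (circleMap 0 r θ)) z * φ z) := by
            rw [hberg]
            congr 1
            refine setLIntegral_congr_fun measurableSet_ball fun z hz => ?_
            simp only [hψin θ z hz]
          rw [h1]
          refine le_trans ?_ (hmax _ (hg.1 _ (circle_mem hr0 hr1 θ)))
          exact le_iSup₂_of_le φ ⟨hφ, hφ1⟩ le_rfl
      _ = ENNReal.ofReal (2 * Real.pi) * M := by
          rw [setLIntegral_const, Real.volume_Ioo, sub_zero, mul_comm]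
  rw [← hc, hberg (schw f)]
  refine le_trans (le_of_eq ?_) hB
  rw [← hA]
  have h1 : ∀ z ∈ ball (0 : ℂ) 1, ∫⁻ θ in Ioo 0 (2 * Real.pi),
      W z * ENNReal.ofReal (‖ψ θ z‖ ^ 2) = ENNReal.ofReal (2 * Real.pi) *
        (W z * ENNReal.ofReal (‖schw f z‖ ^ 2)) +
        ENNReal.ofReal (‖φ z‖ ^ 2 * (1 - ‖z‖ ^ 2) ^ (a + 4)) * msq f g r z := by
    intro z hz
    have h2 := mean_sq (hg.2.1 z hz) hr0 hr1
    simp only [hg.2.2 z hz] at h2
    have h3 : ∀ θ, ψ θ z = schw (g (circleMap 0 r θ)) z := fun θ => hψin θ z hz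
    have hmθ : Measurable fun θ : ℝ => ENNReal.ofReal (‖ψ θ z‖ ^ 2) := by
      simp only [h3]
      exact ENNReal.measurable_ofReal.comp (((circle_cont (hg.2.1 z hz) hr0 hr1).norm.pow
        2).measurable)
    rw [lintegral_const_mul _ hmθ, ← hWin z hz]
    simp only [h3]
    rw [h2]
    unfold msq
    ring
  have hm3 : AEMeasurable (fun z : ℂ => ENNReal.ofReal (‖φ z‖ ^ 2 * (1 - ‖z‖ ^ 2) ^ (a + 4)) *
      msq f g r z) (volume.restrict (ball (0 : ℂ) 1)) := by
    refine AEMeasurable.mul ⟨W, hWm, ?_⟩ (msq_aemeas hr0 hr1 hf hg)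
    filter_upwards [ae_restrict_mem measurableSet_ball] with z hz
    exact (hWin z hz).symm
  rw [setLIntegral_congr_fun measurableSet_ball h1, lintegral_add_right' _ hm3, mul_add,
    lintegral_const_mul' _ _ ENNReal.ofReal_ne_top]
  ring

/-- A maximiser whose multiplier norm is attained lies on no non-constant holomorphic disc of
Schwarzian derivatives of functions of class `S`. -/
theorem rigid {a : ℝ} (ha : -1 < a) (hf : ClassS f)
    (hmax : ∀ g, ClassS g → mult a (schw g) ≤ mult a (schw f))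
    {φ : ℂ → ℂ} (hφ : DifferentiableOn ℂ φ (ball 0 1)) (hφ1 : berg a φ = 1)
    (hatt : berg (a + 4) (fun z => schw f z * φ z) = mult a (schw f))
    (hg : HolDisc f g) :
    ∀ t ∈ ball (0 : ℂ) 1, ∀ z ∈ ball (0 : ℂ) 1, schw (g t) z = schw f z := by
  have hpi := Real.pi_pos
  obtain ⟨r, hr⟩ : ∃ r : ℝ, r = 1 / 2 := ⟨_, rfl⟩
  have hr0 : 0 < r := by rw [hr]; norm_num
  have hr1 : r < 1 := by rw [hr]; norm_num
  have hE := energy hr0 hr1 hf hmax hφ hφ1 hg
  rw [hatt] at hE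
  have hfin : ENNReal.ofReal (2 * Real.pi) * mult a (schw f) ≠ ∞ :=
    ENNReal.mul_ne_top ENNReal.ofReal_ne_top (mult_lt_top ha hf)
  have h1 : ENNReal.ofReal ((a + 4 + 1) / Real.pi) * ∫⁻ z in ball (0 : ℂ) 1,
      ENNReal.ofReal (‖φ z‖ ^ 2 * (1 - ‖z‖ ^ 2) ^ (a + 4)) * msq f g r z = 0 := by
    have h2 := (ENNReal.add_le_add_iff_left hfin).mp (hE.trans (add_zero _).ge)
    exact le_antisymm h2 bot_le
  have hc0 : ENNReal.ofReal ((a + 4 + 1) / Real.pi) ≠ 0 := by
    rw [Ne, ENNReal.ofReal_eq_zero, not_le]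
    exact div_pos (by linarith) hpi
  have h2 := (mul_eq_zero.mp h1).resolve_left hc0
  have hWm : AEMeasurable (fun z : ℂ => ENNReal.ofReal (‖φ z‖ ^ 2 * (1 - ‖z‖ ^ 2) ^ (a + 4)))
      (volume.restrict (ball (0 : ℂ) 1)) := by
    refine ENNReal.measurable_ofReal.comp_aemeasurable (AEMeasurable.mul ?_ ?_)
    · exact ((hφ.continuousOn.aemeasurable measurableSet_ball).norm).pow_const 2
    · exact ((measurable_const.sub (measurable_norm.pow_const 2)).pow_const (a + 4)).aemeasurable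
  have hWm2 : AEMeasurable (fun z : ℂ => ENNReal.ofReal (‖φ z‖ ^ 2 * (1 - ‖z‖ ^ 2) ^ (a + 4)) *
      msq f g r z) (volume.restrict (ball (0 : ℂ) 1)) := hWm.mul (msq_aemeas hr0 hr1 hf hg)
  rw [lintegral_eq_zero_iff' hWm2] at h2
  have hgood : ∀ᵐ z ∂(volume.restrict (ball (0 : ℂ) 1)), φ z = 0 ∨
      ∀ t ∈ ball (0 : ℂ) 1, schw (g t) z = schw f z := by
    filter_upwards [h2, ae_restrict_mem measurableSet_ball] with z hz1 hz
    have h3 : ENNReal.ofReal (‖φ z‖ ^ 2 * (1 - ‖z‖ ^ 2) ^ (a + 4)) * msq f g r z = 0 := hz1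
    by_cases hφz : φ z = 0
    · exact Or.inl hφz
    · right
      have hp := one_sub_pos hz
      have h4 : ENNReal.ofReal (‖φ z‖ ^ 2 * (1 - ‖z‖ ^ 2) ^ (a + 4)) ≠ 0 := by
        rw [Ne, ENNReal.ofReal_eq_zero, not_le]
        have h5 : 0 < ‖φ z‖ := norm_pos_iff.mpr hφz
        positivity
      have h5 := (mul_eq_zero.mp h3).resolve_left h4
      unfold msq at h5
      have hcont := circle_cont (hg.2.1 z hz) hr0 hr1
      have hmθ : Measurable fun θ : ℝ => ENNReal.ofReal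
          (‖schw (g (circleMap 0 r θ)) z - schw f z‖ ^ 2) :=
        ENNReal.measurable_ofReal.comp (((hcont.sub continuous_const).norm.pow 2).measurable)
      rw [lintegral_eq_zero_iff hmθ] at h5
      have h6 : EqOn (fun θ : ℝ => schw (g (circleMap 0 r θ)) z) (fun _ => schw f z)
          (Ioo 0 (2 * Real.pi)) := by
        refine Measure.eqOn_open_of_ae_eq (μ := volume) ?_ isOpen_Ioo
          hcont.continuousOn continuousOn_const
        filter_upwards [h5] with θ hθ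
        have h7 : ENNReal.ofReal (‖schw (g (circleMap 0 r θ)) z - schw f z‖ ^ 2) = 0 := hθ
        rw [ENNReal.ofReal_eq_zero] at h7
        have h8 : ‖schw (g (circleMap 0 r θ)) z - schw f z‖ = 0 := by
          have := sq_nonneg ‖schw (g (circleMap 0 r θ)) z - schw f z‖
          exact pow_eq_zero_iff two_ne_zero |>.mp (le_antisymm h7 this)
        exact sub_eq_zero.mp (norm_eq_zero.mp h8)
      exact const_of_circle (hg.2.1 z hz) hr0 hr1 h6
  intro t ht
  refine eq_of_ae (schw_diff (hg.1 t ht).diff (hg.1 t ht).inj) (schw_diff hf.diff hf.inj) hφ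
    (exists_ne_zero hφ1) ?_
  filter_upwards [hgood] with z hz
  rcases hz with h | h
  · rw [h, mul_zero]
  · rw [h t ht, sub_self, zero_mul]

end

end Pool.Agent.Lib.MP_85878b_an
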