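import Pool.Agent.Lib.MP_85878b_an.Multi
import Pool.Agent.Lib.MP_85878b_an.Energy

/-! # The energy inequality with several disjoint discs in the complement -/

set_option autoImplicit false

namespace Pool.Agent.Lib.MP_85878b_an

open MeasureTheory Metric Set Filter Topology
open scoped ENNReal

theorem image_open {f : ℂ → ℂ} (hf : ClassS f) : IsOpen (f '' ball 0 1) := by
  have h0m : (0 : ℂ) ∈ ball (0 : ℂ) 1 := mem_ball_self one_pos
  have hm : (1 / 2 : ℂ) ∈ ball (0 : ℂ) 1 := by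
    rw [mem_ball_zero_iff]
    norm_num
  have han : AnalyticOnNhd ℂ f (ball 0 1) := hf.diff.analyticOnNhd isOpen_ball
  rcases han.is_constant_or_isOpen (convex_ball (0 : ℂ) 1).isPreconnected with h | h
  · exfalso
    obtain ⟨c, hc⟩ := h
    have h1 := hf.inj h0m hm (by rw [hc 0 h0m, hc _ hm])
    norm_num at h1
  · exact h _ Subset.rfl isOpen_ball

/-- Discs in the complement of the image of `f`. -/
def Outside (f : ℂ → ℂ) (w : ℕ → ℂ) (ρ : ℕ → ℝ) (N : ℕ) : Prop :=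
  ∀ j < N, ∀ z ∈ ball (0 : ℂ) 1, f z ∉ ball (w j) (ρ j)

theorem mem_VV {f : ℂ → ℂ} (hf : ClassS f) {w : ℕ → ℂ} {ρ : ℕ → ℝ} {N : ℕ} (hc : Conf w ρ N)
    (ho : Outside f w ρ N) {k : ℕ} (hk : k ≤ N) {z : ℂ} (hz : z ∈ ball (0 : ℂ) 1) :
    f z ∈ VV w ρ k := by
  intro j hj hz2
  have h1 : Disjoint (ball (w j) (ρ j)) (f '' ball 0 1) := by
    rw [Set.disjoint_left]
    rintro x hx ⟨u, hu, rfl⟩
    exact ho j (by omega) u hu hx
  have h2 := h1.closure_left (image_open hf)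
  rw [closure_ball _ (hc.pos j (by omega)).ne'] at h2
  exact Set.disjoint_left.mp h2 hz2 ⟨z, hz, rfl⟩

/-- First order coefficient of the variation at the `k`-th disc. -/
noncomputable def cc (f : ℂ → ℂ) (w : ℕ → ℂ) (ρ : ℕ → ℝ) (k : ℕ) (z : ℂ) : ℂ :=
  6 * (ρ k / 10) ^ 2 * deriv f z ^ 2 / ((f z - w k) ^ 2) ^ 2

section

variable {f : ℂ → ℂ} {w : ℕ → ℂ} {ρ : ℕ → ℝ} {N L : ℕ}

theorem fk_deriv (hf : ClassS f) (hc : Conf w ρ N) (ho : Outside f w ρ N) (hL : 1 ≤ L) {t : ℂ}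
    (ht : t ∈ ball (0 : ℂ) 1) {k : ℕ} (hk : k ≤ N) {z : ℂ} (hz : z ∈ ball (0 : ℂ) 1) :
    HasDerivAt (fun u => (pq w ρ L t k (f u)).1) ((pq w ρ L t k (f z)).2 * deriv f z) z :=
  ((main_step hc hL ht k hk).1 _ (mem_VV hf hc ho hk hz)).comp z (d1 isOpen_ball hf.diff hz)

theorem fk_diff (hf : ClassS f) (hc : Conf w ρ N) (ho : Outside f w ρ N) (hL : 1 ≤ L) {t : ℂ}
    (ht : t ∈ ball (0 : ℂ) 1) {k : ℕ} (hk : k ≤ N) :
    DifferentiableOn ℂ (fun u => (pq w ρ L t k (f u)).1) (ball 0 1) := fun _ hz =>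
  (fk_deriv hf hc ho hL ht hk hz).differentiableAt.differentiableWithinAt

theorem fk_inj (hf : ClassS f) (hc : Conf w ρ N) (ho : Outside f w ρ N) (hL : 1 ≤ L) {t : ℂ}
    (ht : t ∈ ball (0 : ℂ) 1) {k : ℕ} (hk : k ≤ N) :
    InjOn (fun u => (pq w ρ L t k (f u)).1) (ball 0 1) := fun _ hx _ hy hxy =>
  hf.inj hx hy ((main_step hc hL ht k hk).2 (mem_VV hf hc ho hk hx) (mem_VV hf hc ho hk hy) hxy)

/-- Expansion of the Schwarzian derivative in `t`. -/
theorem schw_expand (hf : ClassS f) (hc : Conf w ρ N) (ho : Outside f w ρ N) (hL : 1 ≤ L) {z : ℂ}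
    (hz : z ∈ ball (0 : ℂ) 1) (k : ℕ) (hk : k ≤ N) :
    ∃ e : ℂ → ℂ, DifferentiableOn ℂ e (ball 0 1) ∧ ∀ t ∈ ball (0 : ℂ) 1,
      schw (fun u => (pq w ρ L t k (f u)).1) z = schw f z -
        t ^ L * (∑ j ∈ Finset.range k, cc f w ρ j z * t ^ j + t ^ L * e t) := by
  induction k with
  | zero =>
    refine ⟨fun _ => 0, differentiableOn_const 0, fun t _ => ?_⟩
    have h1 : (fun u => (pq w ρ L t 0 (f u)).1) = f := rfl
    rw [h1]
    simp
  | succ k ih =>
    obtain ⟨e, he, hexp⟩ := ih (by omega)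
    have hk' : k < N := by omega
    have hρ := hc.pos k hk'
    have hzV : f z ∈ VV w ρ (k + 1) := mem_VV hf hc ho hk hz
    have hwk : w k ∈ VV w ρ k := ball_sub hc hk' le_rfl (mem_ball_self hρ)
    obtain ⟨a1, a2⟩ := cong_pq hc hL k hk'.le (f z) (VV_succ hzV).1
    obtain ⟨b1, b2⟩ := cong_pq hc hL k hk'.le (w k) hwk
    have hx0 : f z - w k ≠ 0 := by
      intro h
      apply (VV_succ hzV).2
      rw [sub_eq_zero.mp h]
      exact mem_closedBall_self hρ.le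
    have hfar : ∀ t ∈ ball (0 : ℂ) 1, ∀ u ∈ ball (0 : ℂ) 1,
        ‖(pq w ρ L t k (w k)).2 * ρ k / 10‖ ≤
          ‖(pq w ρ L t k (f u)).1 - (pq w ρ L t k (w k)).1‖ := fun t ht u hu =>
      (sep hc hL ht hk').2 _ (mem_VV hf hc ho hk hu)
    have hσ : ∀ t ∈ ball (0 : ℂ) 1, 0 < ‖(pq w ρ L t k (w k)).2 * ρ k / 10‖ := fun t ht =>
      (sep hc hL ht hk').1
    have hden : ∀ t ∈ ball (0 : ℂ) 1, ∀ u ∈ ball (0 : ℂ) 1,
        ((pq w ρ L t k (f u)).1 - (pq w ρ L t k (w k)).1) ^ 2 -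
          ((pq w ρ L t k (w k)).2 * ρ k / 10) ^ 2 * t ^ (L + k) ≠ 0 := by
      intro t ht u hu
      have h := step_ne (k := k) hL ht (hσ t ht) (hfar t ht u hu) (hfar t ht u hu)
      rwa [← pow_two] at h
    have hβ : Cong L (fun t => ((pq w ρ L t k (w k)).2 * ρ k / 10) ^ 2) ((ρ k / 10 : ℂ) ^ 2) := by
      have h1 := ((b2.mul (Cong.const L (ρ k : ℂ))).div (Cong.const L (10 : ℂ)) (by norm_num)
        (fun _ _ => by norm_num)).sq
      rw [one_mul] at h1
      exact h1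
    have hD : Cong L (fun t => ((pq w ρ L t k (f z)).1 - (pq w ρ L t k (w k)).1) ^ 2 -
        ((pq w ρ L t k (w k)).2 * ρ k / 10) ^ 2 * t ^ (L + k)) ((f z - w k) ^ 2) := by
      have h1 := (a1.sub b1).sq.sub (Cong.tmul (L := L) hβ.diff k)
      rw [sub_zero] at h1
      exact h1
    have hE : Cong L (fun t => 6 * ((pq w ρ L t k (w k)).2 * ρ k / 10) ^ 2 *
        ((pq w ρ L t k (f z)).2 * deriv f z) ^ 2 /
        (((pq w ρ L t k (f z)).1 - (pq w ρ L t k (w k)).1) ^ 2 -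
          ((pq w ρ L t k (w k)).2 * ρ k / 10) ^ 2 * t ^ (L + k)) ^ 2) (cc f w ρ k z) := by
      have h1 := (((Cong.const L (6 : ℂ)).mul hβ).mul
        ((a2.mul (Cong.const L (deriv f z))).sq)).div hD.sq (pow_ne_zero 2 (pow_ne_zero 2 hx0))
        (fun t ht => pow_ne_zero 2 (hden t ht z hz))
      rw [one_mul] at h1
      exact h1
    obtain ⟨ek, hek, hEk⟩ := hE
    refine ⟨fun t => e t + t ^ k * ek t, he.add ((differentiableOn_id.pow k).mul hek), ?_⟩
    intro t ht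
    have hvar : schw (fun u => (pq w ρ L t (k + 1) (f u)).1) z =
        schw (fun u => (pq w ρ L t k (f u)).1) z -
          6 * (((pq w ρ L t k (w k)).2 * ρ k / 10) ^ 2 * t ^ (L + k)) *
          deriv (fun u => (pq w ρ L t k (f u)).1) z ^ 2 /
          (((pq w ρ L t k (f z)).1 - (pq w ρ L t k (w k)).1) ^ 2 -
            ((pq w ρ L t k (w k)).2 * ρ k / 10) ^ 2 * t ^ (L + k)) ^ 2 := by
      refine schw_var (fk_diff hf hc ho hL ht hk'.le) _ _ ?_ ?_ ?_ hz
      · intro u hu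
        exact CcaPl.deriv_ne_zero_of_injOn _ _ isOpen_ball (fk_diff hf hc ho hL ht hk'.le)
          (fk_inj hf hc ho hL ht hk'.le) u hu
      · intro u hu
        exact norm_pos_iff.mp (lt_of_lt_of_le (hσ t ht) (hfar t ht u hu))
      · intro u hu
        exact hden t ht u hu
    have h2 := hEk t ht
    simp only at h2
    rw [hvar, (fk_deriv hf hc ho hL ht hk'.le hz).deriv, hexp t ht, Finset.sum_range_succ]
    have h3 : 6 * (((pq w ρ L t k (w k)).2 * ρ k / 10) ^ 2 * t ^ (L + k)) *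
          ((pq w ρ L t k (f z)).2 * deriv f z) ^ 2 /
          (((pq w ρ L t k (f z)).1 - (pq w ρ L t k (w k)).1) ^ 2 -
            ((pq w ρ L t k (w k)).2 * ρ k / 10) ^ 2 * t ^ (L + k)) ^ 2 =
        t ^ (L + k) * (6 * ((pq w ρ L t k (w k)).2 * ρ k / 10) ^ 2 *
        ((pq w ρ L t k (f z)).2 * deriv f z) ^ 2 /
        (((pq w ρ L t k (f z)).1 - (pq w ρ L t k (w k)).1) ^ 2 -
          ((pq w ρ L t k (w k)).2 * ρ k / 10) ^ 2 * t ^ (L + k)) ^ 2) := by ring
    rw [h3, h2, pow_add]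
    ring

/-- The holomorphic disc, and the lower bound for its mean squares. -/
theorem exists_disc (hf : ClassS f) (hc : Conf w ρ N) (ho : Outside f w ρ N) :
    ∃ g : ℂ → ℂ → ℂ, HolDisc f g ∧ ∀ r : ℝ, 0 < r → r < 1 → ∀ z ∈ ball (0 : ℂ) 1,
      ENNReal.ofReal (2 * Real.pi) * (ENNReal.ofReal (r ^ (4 * (N + 1))) *
        ∑ k ∈ Finset.range N, ENNReal.ofReal (‖cc f w ρ k z‖ ^ 2)) ≤ msq f g r z := by
  have hL : 1 ≤ N + 1 := by omega
  have h0m : (0 : ℂ) ∈ ball (0 : ℂ) 1 := mem_ball_self one_pos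
  have hex : ∀ t : ℂ, ∃ g : ℂ → ℂ, t ∈ ball (0 : ℂ) 1 →
      ClassS g ∧ schw g = schw (fun u => (pq w ρ (N + 1) t N (f u)).1) := by
    intro t
    by_cases ht : t ∈ ball (0 : ℂ) 1
    · obtain ⟨g, hg1, hg2⟩ := normalise (fk_diff hf hc ho hL ht le_rfl)
        (fk_inj hf hc ho hL ht le_rfl)
      exact ⟨g, fun _ => ⟨hg1, hg2⟩⟩
    · exact ⟨f, fun h => absurd h ht⟩
  choose g hg using hex
  have hformula : ∀ z ∈ ball (0 : ℂ) 1, ∃ e : ℂ → ℂ, DifferentiableOn ℂ e (ball 0 1) ∧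
      ∀ t ∈ ball (0 : ℂ) 1, schw (g t) z = schw f z - t ^ (N + 1) *
        (∑ j ∈ Finset.range N, cc f w ρ j z * t ^ j + t ^ (N + 1) * e t) := by
    intro z hz
    obtain ⟨e, he, hexp⟩ := schw_expand hf hc ho hL hz N le_rfl
    exact ⟨e, he, fun t ht => by rw [(hg t ht).2, hexp t ht]⟩
  refine ⟨g, ⟨fun t ht => (hg t ht).1, ?_, ?_⟩, ?_⟩
  · intro z hz
    obtain ⟨e, he, hexp⟩ := hformula z hz
    have h1 : DifferentiableOn ℂ (fun t : ℂ => schw f z - t ^ (N + 1) *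
        (∑ j ∈ Finset.range N, cc f w ρ j z * t ^ j + t ^ (N + 1) * e t)) (ball 0 1) := by
      refine (differentiableOn_const _).sub ((differentiableOn_id.pow _).mul
        (DifferentiableOn.add ?_ ((differentiableOn_id.pow _).mul he)))
      fun_prop
    exact h1.congr hexp
  · intro z hz
    obtain ⟨e, he, hexp⟩ := hformula z hz
    rw [hexp 0 h0m]
    simp
  · intro r hr0 hr1 z hz
    obtain ⟨e, he, hexp⟩ := hformula z hz
    obtain ⟨G, hG⟩ : ∃ G : ℂ → ℂ, G = fun t : ℂ =>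
      ∑ j ∈ Finset.range N, cc f w ρ j z * t ^ j + t ^ (N + 1) * e t := ⟨_, rfl⟩
    have hGd : DifferentiableOn ℂ G (ball 0 1) := by
      rw [hG]
      refine DifferentiableOn.add ?_ ((differentiableOn_id.pow _).mul he)
      fun_prop
    have h1 := bessel hr0 hr1 N (N + 1) (by omega) G e (fun j => cc f w ρ j z) hGd he
      (fun t _ => by rw [hG])
    have h2 : msq f g r z = ENNReal.ofReal (r ^ (2 * (N + 1))) *
        ∫⁻ θ in Ioo 0 (2 * Real.pi), ENNReal.ofReal (‖G (circleMap 0 r θ)‖ ^ 2) := by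
      unfold msq
      rw [← lintegral_const_mul' _ _ ENNReal.ofReal_ne_top]
      refine lintegral_congr fun θ => ?_
      rw [hexp _ (circle_mem hr0 hr1 θ), sub_sub_cancel_left, norm_neg, norm_mul, norm_pow,
        norm_circleMap_zero, abs_of_pos hr0, ← ENNReal.ofReal_mul (by positivity), hG]
      congr 1
      ring
    rw [h2]
    refine le_trans ?_ (mul_le_mul_right h1 _)
    rw [mul_left_comm (ENNReal.ofReal (r ^ (2 * (N + 1))))]
    refine mul_le_mul_right ?_ _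
    rw [Finset.mul_sum, Finset.mul_sum]
    refine Finset.sum_le_sum fun k hk => ?_
    rw [Finset.mem_range] at hk
    rw [← ENNReal.ofReal_mul (by positivity), ← ENNReal.ofReal_mul (by positivity)]
    apply ENNReal.ofReal_le_ofReal
    have h3 : r ^ (4 * (N + 1)) ≤ r ^ (2 * (N + 1)) * r ^ (2 * k) := by
      rw [← pow_add]
      exact pow_le_pow_of_le_one hr0.le hr1.le (by omega)
    calc r ^ (4 * (N + 1)) * ‖cc f w ρ k z‖ ^ 2
        ≤ (r ^ (2 * (N + 1)) * r ^ (2 * k)) * ‖cc f w ρ k z‖ ^ 2 := by gcongr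
      _ = _ := by ring

/-- The energy inequality with several disjoint discs in the complement. -/
theorem multi_energy {a : ℝ} {M : ℝ≥0∞} (hf : ClassS f)
    (hmax : ∀ g, ClassS g → mult a (schw g) ≤ M)
    {φ : ℂ → ℂ} (hφ : DifferentiableOn ℂ φ (ball 0 1)) (hφ1 : berg a φ = 1)
    (hc : Conf w ρ N) (ho : Outside f w ρ N) :
    berg (a + 4) (fun z => schw f z * φ z) +
      ∑ k ∈ Finset.range N, berg (a + 4) (fun z => cc f w ρ k z * φ z) ≤ M := by
  have hpi := Real.pi_pos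
  obtain ⟨g, hg, hlow⟩ := exists_disc hf hc ho
  obtain ⟨S, hS⟩ : ∃ S, S = ∑ k ∈ Finset.range N, berg (a + 4) (fun z => cc f w ρ k z * φ z) :=
    ⟨_, rfl⟩
  obtain ⟨c, hcc⟩ : ∃ c, c = ENNReal.ofReal ((a + 4 + 1) / Real.pi) := ⟨_, rfl⟩
  have hcctop : c ≠ ∞ := by rw [hcc]; exact ENNReal.ofReal_ne_top
  have h2pi0 : ENNReal.ofReal (2 * Real.pi) ≠ 0 := by
    rw [Ne, ENNReal.ofReal_eq_zero, not_le]
    positivity
  have hWm : AEMeasurable (fun z : ℂ => ENNReal.ofReal (‖φ z‖ ^ 2 * (1 - ‖z‖ ^ 2) ^ (a + 4)))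
      (volume.restrict (ball (0 : ℂ) 1)) := by
    refine ENNReal.measurable_ofReal.comp_aemeasurable (AEMeasurable.mul ?_ ?_)
    · exact ((hφ.continuousOn.aemeasurable measurableSet_ball).norm).pow_const 2
    · exact ((measurable_const.sub (measurable_norm.pow_const 2)).pow_const (a + 4)).aemeasurable
  have hccd : ∀ k < N, ContinuousOn (cc f w ρ k) (ball 0 1) := by
    intro k hk
    unfold cc
    have h1 : ContinuousOn f (ball 0 1) := hf.diff.continuousOn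
    have h2 : ContinuousOn (deriv f) (ball 0 1) := (hf.diff.deriv isOpen_ball).continuousOn
    refine ContinuousOn.div (continuousOn_const.mul (h2.pow 2))
      (((h1.sub continuousOn_const).pow 2).pow 2) fun z hz => ?_
    refine pow_ne_zero 2 (pow_ne_zero 2 fun h => ?_)
    apply ho k hk z hz
    rw [sub_eq_zero.mp h]
    exact mem_ball_self (hc.pos k hk)
  have hberg : ∀ k : ℂ → ℂ, berg (a + 4) (fun z => k z * φ z) =
      c * ∫⁻ z in ball (0 : ℂ) 1, ENNReal.ofReal (‖φ z‖ ^ 2 * (1 - ‖z‖ ^ 2) ^ (a + 4)) *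
        ENNReal.ofReal (‖k z‖ ^ 2) := by
    intro k
    unfold berg
    rw [hcc]
    congr 1
    refine setLIntegral_congr_fun measurableSet_ball fun z hz => ?_
    have hp := one_sub_pos hz
    rw [← ENNReal.ofReal_mul (by positivity), norm_mul]
    congr 1
    ring
  have hSint : S = c * ∫⁻ z in ball (0 : ℂ) 1,
      ENNReal.ofReal (‖φ z‖ ^ 2 * (1 - ‖z‖ ^ 2) ^ (a + 4)) *
        ∑ k ∈ Finset.range N, ENNReal.ofReal (‖cc f w ρ k z‖ ^ 2) := by
    rw [hS]
    simp only [hberg, Finset.mul_sum]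
    rw [lintegral_finsetSum', Finset.mul_sum]
    intro k hk
    refine hWm.mul (ENNReal.measurable_ofReal.comp_aemeasurable ?_)
    exact (((hccd k (Finset.mem_range.mp hk)).aemeasurable measurableSet_ball).norm).pow_const 2
  have hr : ∀ r : ℝ, 0 < r → r < 1 → berg (a + 4) (fun z => schw f z * φ z) +
      ENNReal.ofReal (r ^ (4 * (N + 1))) * S ≤ M := by
    intro r hr0 hr1
    have hE := energy hr0 hr1 hf hmax hφ hφ1 hg
    rw [← hcc] at hE
    have h1 : ENNReal.ofReal (2 * Real.pi) * (berg (a + 4) (fun z => schw f z * φ z) +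
        ENNReal.ofReal (r ^ (4 * (N + 1))) * S) ≤ ENNReal.ofReal (2 * Real.pi) * M := by
      refine le_trans ?_ hE
      rw [mul_add]
      refine add_le_add_right ?_ _
      have h2 : ENNReal.ofReal (2 * Real.pi) * (ENNReal.ofReal (r ^ (4 * (N + 1))) * S) =
          c * ∫⁻ z in ball (0 : ℂ) 1, ENNReal.ofReal (‖φ z‖ ^ 2 * (1 - ‖z‖ ^ 2) ^ (a + 4)) *
            (ENNReal.ofReal (2 * Real.pi) * (ENNReal.ofReal (r ^ (4 * (N + 1))) *
              ∑ k ∈ Finset.range N, ENNReal.ofReal (‖cc f w ρ k z‖ ^ 2))) := by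
        have h3 : ∀ z, ENNReal.ofReal (‖φ z‖ ^ 2 * (1 - ‖z‖ ^ 2) ^ (a + 4)) *
            (ENNReal.ofReal (2 * Real.pi) * (ENNReal.ofReal (r ^ (4 * (N + 1))) *
              ∑ k ∈ Finset.range N, ENNReal.ofReal (‖cc f w ρ k z‖ ^ 2))) =
            (ENNReal.ofReal (2 * Real.pi) * ENNReal.ofReal (r ^ (4 * (N + 1)))) *
            (ENNReal.ofReal (‖φ z‖ ^ 2 * (1 - ‖z‖ ^ 2) ^ (a + 4)) *
              ∑ k ∈ Finset.range N, ENNReal.ofReal (‖cc f w ρ k z‖ ^ 2)) := fun z => by ring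
        simp only [h3]
        rw [lintegral_const_mul' _ _ (ENNReal.mul_ne_top ENNReal.ofReal_ne_top
          ENNReal.ofReal_ne_top), hSint]
        ring
      rw [h2]
      refine mul_le_mul_right ?_ _
      refine setLIntegral_mono_ae' measurableSet_ball (Eventually.of_forall fun z hz => ?_)
      exact mul_le_mul_right (hlow r hr0 hr1 z hz) _
    exact (ENNReal.mul_le_mul_iff_right h2pi0 ENNReal.ofReal_ne_top).mp h1
  rw [← hS]
  have hlim : Tendsto (fun r : ℝ => berg (a + 4) (fun z => schw f z * φ z) +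
      ENNReal.ofReal (r ^ (4 * (N + 1))) * S) (𝓝[<] 1)
      (𝓝 (berg (a + 4) (fun z => schw f z * φ z) + ENNReal.ofReal (1 ^ (4 * (N + 1))) * S)) := by
    have h1 : Tendsto (fun r : ℝ => ENNReal.ofReal (r ^ (4 * (N + 1)))) (𝓝[<] 1)
        (𝓝 (ENNReal.ofReal (1 ^ (4 * (N + 1))))) := by
      have hcont : Continuous fun r : ℝ => ENNReal.ofReal (r ^ (4 * (N + 1))) :=
        ENNReal.continuous_ofReal.comp (continuous_pow _)
      exact (hcont.tendsto 1).mono_left nhdsWithin_le_nhds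
    have h2 : Tendsto (fun r : ℝ => ENNReal.ofReal (r ^ (4 * (N + 1))) * S) (𝓝[<] 1)
        (𝓝 (ENNReal.ofReal (1 ^ (4 * (N + 1))) * S)) := by
      refine ENNReal.Tendsto.mul_const h1 (Or.inl ?_)
      simp
    exact tendsto_const_nhds.add h2
  rw [one_pow, ENNReal.ofReal_one, one_mul] at hlim
  refine le_of_tendsto hlim ?_
  have hpos : ∀ᶠ r : ℝ in 𝓝[<] 1, 0 < r :=
    nhdsWithin_le_nhds (lt_mem_nhds (by norm_num))
  filter_upwards [hpos, self_mem_nhdsWithin] with r hr0 hr1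
  exact hr r hr0 hr1

end

end Pool.Agent.Lib.MP_85878b_an
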