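import Pool.Agent.Lib.MP_85878b_an.Defs

/-! # The conformal map of the strip `|Im w| < π/2` onto the unit disc -/

set_option autoImplicit false

namespace Pool.Agent.Lib.MP_85878b_an

open MeasureTheory Metric Set
open scoped ENNReal

/-- The strip `|Im w| < π/2`. -/
def strip : Set ℂ := {w | w.im ∈ Ioo (-(Real.pi / 2)) (Real.pi / 2)}

/-- `(e^w - 1) / (e^w + 1)`. -/
noncomputable def tmap (w : ℂ) : ℂ := (Complex.exp w - 1) / (Complex.exp w + 1)

theorem strip_meas : MeasurableSet strip := Complex.measurable_im measurableSet_Ioo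

theorem exp_re_pos {w : ℂ} (hw : w ∈ strip) : 0 < (Complex.exp w).re := by
  rw [Complex.exp_re]
  exact mul_pos (Real.exp_pos _) (Real.cos_pos_of_mem_Ioo hw)

theorem exp_add_ne {w : ℂ} (hw : w ∈ strip) : Complex.exp w + 1 ≠ 0 := by
  intro h
  have h1 := congrArg Complex.re h
  rw [Complex.add_re, Complex.one_re, Complex.zero_re] at h1
  linarith [exp_re_pos hw]

theorem tmap_deriv {w : ℂ} (hw : w ∈ strip) :
    HasDerivAt tmap (2 * Complex.exp w / (Complex.exp w + 1) ^ 2) w := by
  have h1 := Complex.hasDerivAt_exp w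
  have h2 := (h1.sub_const 1).div (h1.add_const 1) (exp_add_ne hw)
  refine h2.congr_deriv ?_
  congr 1
  ring

theorem tmap_inj : InjOn tmap strip := by
  intro x hx y hy hxy
  have h1 := exp_add_ne hx
  have h2 := exp_add_ne hy
  unfold tmap at hxy
  rw [div_eq_div_iff h1 h2] at hxy
  have h3 : Complex.exp x = Complex.exp y := by linear_combination hxy / 2
  have hx' : x.im ∈ Ioo (-(Real.pi / 2)) (Real.pi / 2) := hx
  have hy' : y.im ∈ Ioo (-(Real.pi / 2)) (Real.pi / 2) := hy
  have hpi := Real.pi_pos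
  have h4 : Complex.log (Complex.exp x) = Complex.log (Complex.exp y) := by rw [h3]
  rwa [Complex.log_exp (by linarith [hx'.1]) (by linarith [hx'.2]),
    Complex.log_exp (by linarith [hy'.1]) (by linarith [hy'.2])] at h4

theorem one_sub_norm_tmap {w : ℂ} (hw : w ∈ strip) :
    1 - ‖tmap w‖ ^ 2 = 4 * Real.exp w.re / ‖Complex.exp w + 1‖ ^ 2 * Real.cos w.im := by
  have h1 : 0 < ‖Complex.exp w + 1‖ := norm_pos_iff.mpr (exp_add_ne hw)
  have h2 : ‖Complex.exp w + 1‖ ^ 2 - ‖Complex.exp w - 1‖ ^ 2 = 4 * (Complex.exp w).re := by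
    rw [← Complex.normSq_eq_norm_sq, ← Complex.normSq_eq_norm_sq]
    simp only [Complex.normSq_apply, Complex.add_re, Complex.add_im, Complex.sub_re,
      Complex.sub_im, Complex.one_re, Complex.one_im]
    ring
  rw [Complex.exp_re] at h2
  unfold tmap
  rw [norm_div, div_pow]
  field_simp
  linarith

theorem tmap_mem {w : ℂ} (hw : w ∈ strip) : tmap w ∈ ball (0 : ℂ) 1 := by
  have h1 : 0 < ‖Complex.exp w + 1‖ := norm_pos_iff.mpr (exp_add_ne hw)
  have h2 := one_sub_norm_tmap hw
  have h3 : 0 < Real.cos w.im := Real.cos_pos_of_mem_Ioo hw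
  have h4 : 0 < 1 - ‖tmap w‖ ^ 2 := by
    rw [h2]
    have := Real.exp_pos w.re
    positivity
  rw [mem_ball_zero_iff]
  nlinarith [norm_nonneg (tmap w)]

theorem tmap_image : tmap '' strip = ball (0 : ℂ) 1 := by
  apply Subset.antisymm
  · rintro _ ⟨w, hw, rfl⟩
    exact tmap_mem hw
  · intro z hz
    have hz1 : ‖z‖ < 1 := mem_ball_zero_iff.mp hz
    have hne1 : 1 - z ≠ 0 := by
      intro h
      have : z = 1 := by linear_combination -h
      rw [this, norm_one] at hz1
      exact lt_irrefl _ hz1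
    have hne2 : 1 + z ≠ 0 := by
      intro h
      have : z = -1 := by linear_combination h
      rw [this, norm_neg, norm_one] at hz1
      exact lt_irrefl _ hz1
    have hu0 : (1 + z) / (1 - z) ≠ 0 := div_ne_zero hne2 hne1
    have hre : 0 < ((1 + z) / (1 - z)).re := by
      have h1 : ((1 + z) / (1 - z)).re = (1 - ‖z‖ ^ 2) / Complex.normSq (1 - z) := by
        rw [Complex.div_re, ← Complex.normSq_eq_norm_sq]
        simp only [Complex.normSq_apply, Complex.add_re, Complex.add_im, Complex.sub_re,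
          Complex.sub_im, Complex.one_re, Complex.one_im]
        ring
      rw [h1]
      exact div_pos (one_sub_pos hz) (Complex.normSq_pos.mpr hne1)
    refine ⟨Complex.log ((1 + z) / (1 - z)), ?_, ?_⟩
    · have h2 : |Complex.arg ((1 + z) / (1 - z))| < Real.pi / 2 := by
        rw [Complex.abs_arg_lt_pi_div_two_iff]
        exact Or.inl hre
      have h3 := abs_lt.mp h2
      change (Complex.log ((1 + z) / (1 - z))).im ∈ Ioo (-(Real.pi / 2)) (Real.pi / 2)
      rw [Complex.log_im]
      exact h3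
    · unfold tmap
      rw [Complex.exp_log hu0]
      field_simp
      ring

theorem det_mul (w : ℂ) (L : ℂ →L[ℝ] ℂ) (h : ∀ z, L z = w * z) : L.det = ‖w‖ ^ 2 := by
  have h1 : (L : ℂ →ₗ[ℝ] ℂ) = Algebra.lmul ℝ ℂ w := by
    ext
    simp [h]
  rw [ContinuousLinearMap.det, h1, ← Algebra.norm_apply, Algebra.norm_complex_apply,
    Complex.normSq_eq_norm_sq]

/-- Change of variables from the disc to the strip. -/
theorem lint_disc (g : ℂ → ℝ≥0∞) :
    ∫⁻ z in ball (0 : ℂ) 1, g z =
      ∫⁻ w in strip, ENNReal.ofReal (‖2 * Complex.exp w / (Complex.exp w + 1) ^ 2‖ ^ 2) *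
        g (tmap w) := by
  obtain ⟨L, hL⟩ : ∃ L : ℂ → (ℂ →L[ℝ] ℂ), L = fun w => (ContinuousLinearMap.toSpanSingleton ℂ
    (2 * Complex.exp w / (Complex.exp w + 1) ^ 2)).restrictScalars ℝ := ⟨_, rfl⟩
  have hdet : ∀ w, (L w).det = ‖2 * Complex.exp w / (Complex.exp w + 1) ^ 2‖ ^ 2 := by
    intro w
    apply det_mul
    intro z
    rw [hL]
    simp [mul_comm]
  have hder : ∀ w ∈ strip, HasFDerivWithinAt tmap (L w) strip w := by
    intro w hw
    rw [hL]
    exact ((tmap_deriv hw).hasFDerivAt.restrictScalars ℝ).hasFDerivWithinAt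
  have h1 := lintegral_image_eq_lintegral_abs_det_fderiv_mul volume strip_meas hder tmap_inj g
  rw [tmap_image] at h1
  rw [h1]
  refine lintegral_congr fun w => ?_
  rw [hdet, abs_of_nonneg (by positivity)]

/-- Product functions on the strip. -/
theorem lint_strip {F H : ℝ → ℝ≥0∞} (hF : Measurable F) (hH : Measurable H) :
    ∫⁻ w in strip, F w.re * H w.im =
      (∫⁻ x, F x) * ∫⁻ y in Ioo (-(Real.pi / 2)) (Real.pi / 2), H y := by
  have hmp := Complex.volume_preserving_equiv_real_prod.symm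
  rw [← lintegral_indicator strip_meas, ← lintegral_indicator measurableSet_Ioo,
    ← hmp.lintegral_comp_emb Complex.measurableEquivRealProd.symm.measurableEmbedding]
  have h2 : ∀ p : ℝ × ℝ, strip.indicator (fun w => F w.re * H w.im)
      (Complex.measurableEquivRealProd.symm p) =
      F p.1 * (Ioo (-(Real.pi / 2)) (Real.pi / 2)).indicator H p.2 := by
    rintro ⟨x, y⟩
    by_cases hy : y ∈ Ioo (-(Real.pi / 2)) (Real.pi / 2)
    · rw [indicator_of_mem, indicator_of_mem hy]
      · rfl
      · exact hy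
    · rw [indicator_of_notMem, indicator_of_notMem hy, mul_zero]
      exact hy
  rw [lintegral_congr h2, Measure.volume_eq_prod,
    lintegral_prod_mul hF.aemeasurable (hH.indicator measurableSet_Ioo).aemeasurable]

end Pool.Agent.Lib.MP_85878b_an
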