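import Pool.Agent.Lib.MP_85878b_an.Koebe
import Pool.Agent.Lib.MP_85878b_an.Strip
import Pool.Agent.Lib.MP_85878b_an.Cosint

/-! # The lower bound from the Koebe function -/

set_option autoImplicit false

namespace Pool.Agent.Lib.MP_85878b_an

open MeasureTheory Metric Set Filter Topology
open scoped ENNReal

/-- The modulus of `1 - T(w)²`. -/
noncomputable def nn (w : ℂ) : ℝ := 4 * Real.exp w.re / ‖Complex.exp w + 1‖ ^ 2

theorem nn_pos {w : ℂ} (hw : w ∈ strip) : 0 < nn w := by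
  have h1 : 0 < ‖Complex.exp w + 1‖ := norm_pos_iff.mpr (exp_add_ne hw)
  have := Real.exp_pos w.re
  unfold nn
  positivity

theorem norm_one_sub_sq {w : ℂ} (hw : w ∈ strip) : ‖1 - tmap w ^ 2‖ = nn w := by
  have h1 := exp_add_ne hw
  have h2 : 1 - tmap w ^ 2 = 4 * Complex.exp w / (Complex.exp w + 1) ^ 2 := by
    unfold tmap
    field_simp
    ring
  rw [h2, norm_div, norm_mul, norm_pow, Complex.norm_exp]
  unfold nn
  norm_num

theorem norm_deriv_tmap {w : ℂ} :
    ‖2 * Complex.exp w / (Complex.exp w + 1) ^ 2‖ = nn w / 2 := by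
  rw [norm_div, norm_mul, norm_pow, Complex.norm_exp]
  unfold nn
  norm_num
  ring

theorem nn_le {w : ℂ} (hw : w ∈ strip) : nn w ≤ gw w.re := by
  unfold nn gw
  have h1 : 0 < ‖Complex.exp w + 1‖ := norm_pos_iff.mpr (exp_add_ne hw)
  have h2 := Real.exp_pos w.re
  have h3 := Real.exp_pos (2 * w.re)
  have h5 := exp_re_pos hw
  have h6 : ‖Complex.exp w + 1‖ ^ 2 = Real.exp (2 * w.re) + 2 * (Complex.exp w).re + 1 := by
    have h7 : ‖Complex.exp w‖ ^ 2 = Real.exp (2 * w.re) := by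
      rw [Complex.norm_exp, ← Real.exp_nat_mul]
      norm_num
    rw [← h7, ← Complex.normSq_eq_norm_sq, ← Complex.normSq_eq_norm_sq]
    simp only [Complex.normSq_apply, Complex.add_re, Complex.add_im, Complex.one_re,
      Complex.one_im]
    ring
  apply div_le_div_of_nonneg_left (by positivity) (by positivity)
  rw [h6]
  linarith

theorem le_nn {w : ℂ} (hw : w ∈ strip) : gw w.re / 2 ≤ nn w := by
  unfold nn gw
  have h1 : 0 < ‖Complex.exp w + 1‖ := norm_pos_iff.mpr (exp_add_ne hw)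
  have h2 := Real.exp_pos w.re
  have h3 := Real.exp_pos (2 * w.re)
  have h6 : ‖Complex.exp w + 1‖ ≤ Real.exp w.re + 1 := by
    calc ‖Complex.exp w + 1‖ ≤ ‖Complex.exp w‖ + ‖(1 : ℂ)‖ := norm_add_le _ _
      _ = _ := by rw [Complex.norm_exp, norm_one]
  have h7 : ‖Complex.exp w + 1‖ ^ 2 ≤ 2 * (Real.exp (2 * w.re) + 1) := by
    have h8 : Real.exp (2 * w.re) = Real.exp w.re ^ 2 := by
      rw [← Real.exp_nat_mul]
      norm_num
    have h9 : ‖Complex.exp w + 1‖ ^ 2 ≤ (Real.exp w.re + 1) ^ 2 := by gcongr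
    nlinarith [sq_nonneg (Real.exp w.re - 1)]
  rw [div_div]
  apply div_le_div_of_nonneg_left (by positivity) (by positivity)
  linarith

/-- The test function `(1 - z²)^(-s)`, `s = (a + 2 - η)/2`. -/
noncomputable def test (a η : ℝ) (z : ℂ) : ℂ := (1 - z ^ 2) ^ ((-((a + 2 - η) / 2) : ℝ) : ℂ)

theorem test_diff (a η : ℝ) : DifferentiableOn ℂ (test a η) (ball 0 1) := by
  intro z hz
  have h1 : 1 - z ^ 2 ∈ Complex.slitPlane := by
    left
    have h2 : ‖z ^ 2‖ < 1 := by
      rw [norm_pow]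
      have := mem_ball_zero_iff.mp hz
      nlinarith [norm_nonneg z]
    have h3 := Complex.re_le_norm (z ^ 2)
    rw [Complex.sub_re, Complex.one_re]
    linarith
  have h2 : DifferentiableAt ℂ (fun z : ℂ => 1 - z ^ 2) z := by fun_prop
  exact (h2.cpow (differentiableAt_const _) h1).differentiableWithinAt

theorem norm_test {a η : ℝ} {w : ℂ} (hw : w ∈ strip) :
    ‖test a η (tmap w)‖ = nn w ^ (-((a + 2 - η) / 2)) := by
  unfold test
  rw [Complex.norm_cpow_real, norm_one_sub_sq hw]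

theorem rpow_two_mul {x : ℝ} (hx : 0 < x) (s : ℝ) : (x ^ (-s)) ^ 2 = x ^ (-(2 * s)) := by
  rw [← Real.rpow_natCast, ← Real.rpow_mul hx.le]
  congr 1
  push_cast
  ring

theorem point1 {a η : ℝ} {w : ℂ} (hw : w ∈ strip) :
    (nn w / 2) ^ 2 * (‖test a η (tmap w)‖ ^ 2 * (1 - ‖tmap w‖ ^ 2) ^ a) =
      1 / 4 * (nn w ^ η * Real.cos w.im ^ a) := by
  have hn := nn_pos hw
  have hc : 0 < Real.cos w.im := Real.cos_pos_of_mem_Ioo hw
  have h1 : 1 - ‖tmap w‖ ^ 2 = nn w * Real.cos w.im := one_sub_norm_tmap hw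
  rw [h1, norm_test hw, rpow_two_mul hn, Real.mul_rpow hn.le hc.le]
  have h2 : nn w ^ η = nn w ^ 2 * nn w ^ (-(2 * ((a + 2 - η) / 2))) * nn w ^ a := by
    rw [← Real.rpow_two, ← Real.rpow_add hn, ← Real.rpow_add hn]
    congr 1
    ring
  rw [h2]
  ring

theorem point2 {a η : ℝ} {w : ℂ} (hw : w ∈ strip) :
    (nn w / 2) ^ 2 * (‖-6 / (1 - tmap w ^ 2) ^ 2 * test a η (tmap w)‖ ^ 2 *
      (1 - ‖tmap w‖ ^ 2) ^ (a + 4)) = 9 * (nn w ^ η * Real.cos w.im ^ (a + 4)) := by
  have hn := nn_pos hw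
  have hc : 0 < Real.cos w.im := Real.cos_pos_of_mem_Ioo hw
  have h1 : 1 - ‖tmap w‖ ^ 2 = nn w * Real.cos w.im := one_sub_norm_tmap hw
  have h3 : ‖-6 / (1 - tmap w ^ 2) ^ 2 * test a η (tmap w)‖ ^ 2 =
      36 / nn w ^ 4 * nn w ^ (-(2 * ((a + 2 - η) / 2))) := by
    have h6 : (6 : ℝ) ^ 2 = 36 := by norm_num
    rw [norm_mul, mul_pow, norm_test hw, rpow_two_mul hn, norm_div, norm_pow,
      norm_one_sub_sq hw, norm_neg, Complex.norm_ofNat, div_pow, ← pow_mul, h6]
  rw [h1, h3, Real.mul_rpow hn.le hc.le]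
  have h2 : nn w ^ η = nn w ^ 2 * nn w ^ (-(2 * ((a + 2 - η) / 2))) * nn w ^ a := by
    rw [← Real.rpow_two, ← Real.rpow_add hn, ← Real.rpow_add hn]
    congr 1
    ring
  have h4 : nn w ^ (a + 4) = nn w ^ a * nn w ^ 4 := by
    rw [Real.rpow_add hn]
    congr 1
    rw [← Real.rpow_natCast]
    norm_num
  rw [h2, h4]
  field_simp
  ring

/-- Upper bound for the norm of the test function. -/
theorem berg_test_le {a η : ℝ} (ha : -1 < a) (hη : 0 < η) :
    berg a (test a η) ≤ ENNReal.ofReal ((a + 1) / Real.pi) * (ENNReal.ofReal (1 / 4) *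
      ((∫⁻ x, ENNReal.ofReal (gw x ^ η)) * ENNReal.ofReal (wal a))) := by
  unfold berg
  have hF : Measurable (fun x => ENNReal.ofReal (gw x ^ η)) :=
    ENNReal.measurable_ofReal.comp (gw_cont.measurable.pow_const η)
  have hH : Measurable (fun y => ENNReal.ofReal (Real.cos y ^ a)) :=
    ENNReal.measurable_ofReal.comp (Real.measurable_cos.pow_const a)
  rw [lint_disc, ← lwal ha, ← lint_strip hF hH]
  refine mul_le_mul_right ?_ _
  rw [← lintegral_const_mul' _ _ ENNReal.ofReal_ne_top]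
  refine setLIntegral_mono_ae' strip_meas (Eventually.of_forall fun w hw => ?_)
  have hn := nn_pos hw
  have hc : 0 < Real.cos w.im := Real.cos_pos_of_mem_Ioo hw
  have hg := gw_pos w.re
  rw [norm_deriv_tmap, ← ENNReal.ofReal_mul (sq_nonneg (nn w / 2)), point1 hw,
    ← ENNReal.ofReal_mul (Real.rpow_nonneg hg.le η),
    ← ENNReal.ofReal_mul (by norm_num : (0 : ℝ) ≤ 1 / 4)]
  apply ENNReal.ofReal_le_ofReal
  have h1 : nn w ^ η ≤ gw w.re ^ η := Real.rpow_le_rpow hn.le (nn_le hw) hη.le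
  gcongr

theorem berg_test_ne_zero {a η : ℝ} (ha : -1 < a) : berg a (test a η) ≠ 0 := by
  intro h
  unfold berg at h
  have hpi := Real.pi_pos
  rw [lint_disc, mul_eq_zero] at h
  rcases h with h | h
  · rw [ENNReal.ofReal_eq_zero] at h
    have : 0 < (a + 1) / Real.pi := div_pos (by linarith) hpi
    linarith
  · have h1 : ∀ w ∈ strip, ENNReal.ofReal (‖2 * Complex.exp w / (Complex.exp w + 1) ^ 2‖ ^ 2) *
        ENNReal.ofReal (‖test a η (tmap w)‖ ^ 2 * (1 - ‖tmap w‖ ^ 2) ^ a) =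
        ENNReal.ofReal (1 / 4 * (nn w ^ η * Real.cos w.im ^ a)) := by
      intro w hw
      rw [norm_deriv_tmap, ← ENNReal.ofReal_mul (by positivity), point1 hw]
    rw [setLIntegral_congr_fun strip_meas h1] at h
    have hm : Measurable fun w : ℂ => ENNReal.ofReal (1 / 4 * (nn w ^ η * Real.cos w.im ^ a)) := by
      unfold nn
      fun_prop
    rw [lintegral_eq_zero_iff hm] at h
    have h2 : ∀ᵐ w ∂(volume.restrict strip), w ∈ strip := ae_restrict_mem strip_meas
    have h3 : ∀ᵐ w ∂(volume.restrict strip), False := by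
      filter_upwards [h, h2] with w hw1 hw2
      have h4 : ENNReal.ofReal (1 / 4 * (nn w ^ η * Real.cos w.im ^ a)) = 0 := hw1
      rw [ENNReal.ofReal_eq_zero] at h4
      have hn := nn_pos hw2
      have hc : 0 < Real.cos w.im := Real.cos_pos_of_mem_Ioo hw2
      have : 0 < 1 / 4 * (nn w ^ η * Real.cos w.im ^ a) := by positivity
      linarith
    have h5 : (volume.restrict strip) univ = 0 := by
      have := ae_iff.mp h3
      simpa using this
    rw [Measure.restrict_apply_univ] at h5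
    have h6 : IsOpen strip := by
      have : Continuous fun w : ℂ => w.im := Complex.continuous_im
      exact isOpen_Ioo.preimage this
    have h7 : strip.Nonempty := ⟨0, by
      change (0 : ℂ).im ∈ Ioo (-(Real.pi / 2)) (Real.pi / 2)
      rw [Complex.zero_im]
      constructor <;> linarith⟩
    exact (h6.measure_pos volume h7).ne' h5

/-- Lower bound for the norm of the product with the Schwarzian of the Koebe function. -/
theorem le_berg_test {a η : ℝ} (ha : -1 < a) (hη : 0 < η) :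
    ENNReal.ofReal ((a + 5) / Real.pi) * (ENNReal.ofReal (9 * 2 ^ (-η)) *
      ((∫⁻ x, ENNReal.ofReal (gw x ^ η)) * ENNReal.ofReal (wal (a + 4)))) ≤
      berg (a + 4) (fun z => schw koebe z * test a η z) := by
  have h0 : berg (a + 4) (fun z => schw koebe z * test a η z) =
      berg (a + 4) (fun z => -6 / (1 - z ^ 2) ^ 2 * test a η z) :=
    berg_congr fun z hz => by rw [schw_koebe hz]
  rw [h0]
  unfold berg
  have hF : Measurable (fun x => ENNReal.ofReal (gw x ^ η)) :=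
    ENNReal.measurable_ofReal.comp (gw_cont.measurable.pow_const η)
  have hH : Measurable (fun y => ENNReal.ofReal (Real.cos y ^ (a + 4))) :=
    ENNReal.measurable_ofReal.comp (Real.measurable_cos.pow_const (a + 4))
  have e : a + 4 + 1 = a + 5 := by ring
  rw [lint_disc, ← lwal (p := a + 4) (by linarith), ← lint_strip hF hH, e]
  refine mul_le_mul_right ?_ _
  rw [← lintegral_const_mul' _ _ ENNReal.ofReal_ne_top]
  refine setLIntegral_mono_ae' strip_meas (Eventually.of_forall fun w hw => ?_)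
  beta_reduce
  have hn := nn_pos hw
  have hg := gw_pos w.re
  have hc : 0 < Real.cos w.im := Real.cos_pos_of_mem_Ioo hw
  rw [norm_deriv_tmap, ← ENNReal.ofReal_mul (sq_nonneg (nn w / 2)), point2 hw,
    ← ENNReal.ofReal_mul (Real.rpow_nonneg hg.le η),
    ← ENNReal.ofReal_mul (by positivity : (0 : ℝ) ≤ 9 * 2 ^ (-η))]
  apply ENNReal.ofReal_le_ofReal
  have h1 : (gw w.re / 2) ^ η ≤ nn w ^ η :=
    Real.rpow_le_rpow (by positivity) (le_nn hw) hη.le
  have h2 : (gw w.re / 2) ^ η = gw w.re ^ η * 2 ^ (-η) := by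
    rw [Real.div_rpow hg.le (by norm_num), Real.rpow_neg (by norm_num), div_eq_mul_inv]
  rw [h2] at h1
  calc 9 * 2 ^ (-η) * (gw w.re ^ η * Real.cos w.im ^ (a + 4))
      = 9 * ((gw w.re ^ η * 2 ^ (-η)) * Real.cos w.im ^ (a + 4)) := by ring
    _ ≤ _ := by gcongr

theorem exists_unit {a : ℝ} (ha : -1 < a) :
    ∃ φ : ℂ → ℂ, DifferentiableOn ℂ φ (ball 0 1) ∧ berg a φ = 1 := by
  have h1 := berg_test_le (η := 1) ha one_pos
  have hG1 := gw_fin (η := 1) one_pos
  have hne : berg a (test a 1) ≠ ∞ := by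
    refine ne_of_lt (lt_of_le_of_lt h1 ?_)
    finiteness
  have h0 : berg a (test a 1) ≠ 0 := berg_test_ne_zero ha
  obtain ⟨B, hB⟩ : ∃ B : ℝ, B = (berg a (test a 1)).toReal := ⟨_, rfl⟩
  have hBpos : 0 < B := by
    rw [hB]
    exact ENNReal.toReal_pos h0 hne
  have hBeq : berg a (test a 1) = ENNReal.ofReal B := by
    rw [hB, ENNReal.ofReal_toReal hne]
  obtain ⟨c, hc⟩ : ∃ c : ℂ, c = ((Real.sqrt B)⁻¹ : ℝ) := ⟨_, rfl⟩
  have hcn : ‖c‖ ^ 2 = B⁻¹ := by
    rw [hc, Complex.norm_real, Real.norm_eq_abs, sq_abs, inv_pow, Real.sq_sqrt hBpos.le]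
  refine ⟨fun z => c * test a 1 z, (test_diff a 1).const_mul c, ?_⟩
  rw [berg_smul, hcn, hBeq, ← ENNReal.ofReal_mul (by positivity), inv_mul_cancel₀ hBpos.ne',
    ENNReal.ofReal_one]

theorem koebe_step {a η : ℝ} (ha : -1 < a) (hη : 0 < η) :
    ENNReal.ofReal (2 ^ (-η) * (36 * ((a + 3) * (a + 5)) / ((a + 2) * (a + 4)))) ≤
      mult a (schw koebe) := by
  have hpi := Real.pi_pos
  have hG0 := gw_ne_zero η
  have hG1 := gw_fin hη
  obtain ⟨G, hG⟩ : ∃ G : ℝ, G = (∫⁻ x, ENNReal.ofReal (gw x ^ η)).toReal := ⟨_, rfl⟩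
  have hGpos : 0 < G := by
    rw [hG]
    exact ENNReal.toReal_pos hG0 hG1
  have hGeq : ∫⁻ x, ENNReal.ofReal (gw x ^ η) = ENNReal.ofReal G := by
    rw [hG, ENNReal.ofReal_toReal hG1]
  have hW := wal_pos ha
  have hW4 := wal_four ha
  have h1 := berg_test_le (η := η) ha hη
  have h2 := le_berg_test (η := η) ha hη
  rw [hGeq] at h1 h2
  have ha1 : 0 < a + 1 := by linarith
  have ha2 : 0 < a + 2 := by linarith
  have ha3 : 0 < a + 3 := by linarith
  have ha4 : 0 < a + 4 := by linarith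
  have ha5 : 0 < a + 5 := by linarith
  have hne : berg a (test a η) ≠ ∞ := by
    refine ne_of_lt (lt_of_le_of_lt h1 ?_)
    finiteness
  have h3 := berg_le_mult (ψ := schw koebe) (test_diff a η) (berg_test_ne_zero ha) hne
  obtain ⟨V, hV⟩ : ∃ V : ℝ, V = (a + 1) / Real.pi * (1 / 4 * (G * wal a)) := ⟨_, rfl⟩
  have hVpos : 0 < V := by
    rw [hV]
    positivity
  have h4 : berg a (test a η) ≤ ENNReal.ofReal V := by
    refine h1.trans (le_of_eq ?_)
    rw [hV, ENNReal.ofReal_mul (by positivity), ENNReal.ofReal_mul (by norm_num),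
      ENNReal.ofReal_mul hGpos.le]
  have h5 : ENNReal.ofReal (2 ^ (-η) * (36 * ((a + 3) * (a + 5)) / ((a + 2) * (a + 4)))) *
      ENNReal.ofReal V ≤ mult a (schw koebe) * ENNReal.ofReal V := by
    calc _ = ENNReal.ofReal ((a + 5) / Real.pi) * (ENNReal.ofReal (9 * 2 ^ (-η)) *
          (ENNReal.ofReal G * ENNReal.ofReal (wal (a + 4)))) := by
          rw [← ENNReal.ofReal_mul (by positivity), ← ENNReal.ofReal_mul (by positivity),
            ← ENNReal.ofReal_mul (by positivity), ← ENNReal.ofReal_mul (by positivity), hV, hW4]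
          congr 1
          field_simp
          ring
      _ ≤ berg (a + 4) (fun z => schw koebe z * test a η z) := h2
      _ ≤ mult a (schw koebe) * berg a (test a η) := h3
      _ ≤ _ := by gcongr
  have hV0 : ENNReal.ofReal V ≠ 0 := by
    rw [Ne, ENNReal.ofReal_eq_zero, not_le]
    exact hVpos
  exact (ENNReal.mul_le_mul_iff_left hV0 ENNReal.ofReal_ne_top).mp h5

theorem koebe_lower {a : ℝ} (ha : -1 < a) :
    ENNReal.ofReal (36 * ((a + 3) * (a + 5)) / ((a + 2) * (a + 4))) ≤ mult a (schw koebe) := by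
  have h1 : Tendsto (fun η : ℝ => ENNReal.ofReal (2 ^ (-η) *
      (36 * ((a + 3) * (a + 5)) / ((a + 2) * (a + 4))))) (𝓝[>] 0)
      (𝓝 (ENNReal.ofReal (2 ^ (-(0 : ℝ)) * (36 * ((a + 3) * (a + 5)) / ((a + 2) * (a + 4)))))) := by
    have hc : Continuous fun η : ℝ => ENNReal.ofReal (2 ^ (-η) *
        (36 * ((a + 3) * (a + 5)) / ((a + 2) * (a + 4)))) := by
      refine ENNReal.continuous_ofReal.comp ((Continuous.rpow continuous_const continuous_neg
        fun _ => Or.inl (by norm_num)).mul continuous_const)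
    exact (hc.tendsto 0).mono_left nhdsWithin_le_nhds
  rw [neg_zero, Real.rpow_zero, one_mul] at h1
  refine le_of_tendsto h1 ?_
  filter_upwards [self_mem_nhdsWithin] with η hη
  exact koebe_step ha hη

end Pool.Agent.Lib.MP_85878b_an
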