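import Pool.Agent.Lib.MP_85878b_an.Schw

/-! # Mean squares over circles -/

set_option autoImplicit false

namespace Pool.Agent.Lib.MP_85878b_an

open MeasureTheory Metric Set Filter Topology
open scoped ENNReal

theorem circle_mem {r : ℝ} (hr0 : 0 < r) (hr1 : r < 1) (θ : ℝ) :
    circleMap 0 r θ ∈ ball (0 : ℂ) 1 := by
  rw [mem_ball_zero_iff, norm_circleMap_zero, abs_of_pos hr0]
  exact hr1

theorem circle_cont {h : ℂ → ℂ} (hd : DifferentiableOn ℂ h (ball 0 1)) {r : ℝ} (hr0 : 0 < r)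
    (hr1 : r < 1) : Continuous fun θ : ℝ => h (circleMap 0 r θ) :=
  hd.continuousOn.comp_continuous (continuous_circleMap 0 r) (circle_mem hr0 hr1)

theorem circle_mean {h : ℂ → ℂ} (hd : DifferentiableOn ℂ h (ball 0 1)) {r : ℝ} (hr0 : 0 < r)
    (hr1 : r < 1) :
    ∫ θ in Ioo 0 (2 * Real.pi), h (circleMap 0 r θ) = (2 * Real.pi : ℝ) • h 0 := by
  have hpi := Real.pi_pos
  have h1 : Real.circleAverage h 0 r = h 0 := by
    apply DiffContOnCl.circleAverage
    apply (hd.mono _).diffContOnCl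
    rw [abs_of_pos hr0]
    exact (closure_ball_subset_closedBall).trans (closedBall_subset_ball hr1)
  rw [Real.circleAverage_def] at h1
  rw [← integral_Ioc_eq_integral_Ioo, ← intervalIntegral.integral_of_le (by positivity), ← h1,
    smul_smul, mul_inv_cancel₀ (by positivity), one_smul]

theorem mean_sq {h : ℂ → ℂ} (hd : DifferentiableOn ℂ h (ball 0 1)) {r : ℝ} (hr0 : 0 < r)
    (hr1 : r < 1) :
    ∫⁻ θ in Ioo 0 (2 * Real.pi), ENNReal.ofReal (‖h (circleMap 0 r θ)‖ ^ 2) =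
      ENNReal.ofReal (2 * Real.pi) * ENNReal.ofReal (‖h 0‖ ^ 2) +
      ∫⁻ θ in Ioo 0 (2 * Real.pi), ENNReal.ofReal (‖h (circleMap 0 r θ) - h 0‖ ^ 2) := by
  have hpi := Real.pi_pos
  have hc := circle_cont hd hr0 hr1
  have hint : ∀ {E : Type} [NormedAddCommGroup E] {k : ℝ → E}, Continuous k →
      IntegrableOn k (Ioo 0 (2 * Real.pi)) := by
    intro E _ k hk
    exact (hk.continuousOn.integrableOn_compact isCompact_Icc).mono_set Ioo_subset_Icc_self
  have hc1 : Continuous fun θ : ℝ => ‖h (circleMap 0 r θ)‖ ^ 2 := hc.norm.pow 2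
  have hc2 : Continuous fun θ : ℝ => ‖h (circleMap 0 r θ) - h 0‖ ^ 2 :=
    ((hc.sub continuous_const).norm).pow 2
  have hc3 : Continuous fun θ : ℝ => (starRingEnd ℂ) (h 0) * (h (circleMap 0 r θ) - h 0) :=
    continuous_const.mul (hc.sub continuous_const)
  have hc4 : Continuous fun θ : ℝ =>
      ((starRingEnd ℂ) (h 0) * (h (circleMap 0 r θ) - h 0)).re := Complex.continuous_re.comp hc3
  have hpt : ∀ θ : ℝ, ‖h (circleMap 0 r θ)‖ ^ 2 = ‖h 0‖ ^ 2 +
      ‖h (circleMap 0 r θ) - h 0‖ ^ 2 +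
      2 * ((starRingEnd ℂ) (h 0) * (h (circleMap 0 r θ) - h 0)).re := by
    intro θ
    generalize h (circleMap 0 r θ) = x
    generalize h 0 = y
    rw [← Complex.normSq_eq_norm_sq, ← Complex.normSq_eq_norm_sq, ← Complex.normSq_eq_norm_sq]
    simp only [Complex.normSq_apply, Complex.sub_re, Complex.sub_im, Complex.mul_re,
      Complex.conj_re, Complex.conj_im]
    ring
  have hzero : ∫ θ in Ioo 0 (2 * Real.pi),
      ((starRingEnd ℂ) (h 0) * (h (circleMap 0 r θ) - h 0)).re = 0 := by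
    have h1 := Complex.reCLM.integral_comp_comm (hint hc3)
    have h2 : ∫ θ in Ioo 0 (2 * Real.pi), (starRingEnd ℂ) (h 0) * (h (circleMap 0 r θ) - h 0) =
        0 := by
      rw [integral_const_mul, integral_sub (hint hc) (hint continuous_const), circle_mean hd hr0 hr1,
        setIntegral_const]
      simp [Real.volume_real_Ioo_of_le (show (0 : ℝ) ≤ 2 * Real.pi by positivity)]
    rw [h2] at h1
    simpa using h1
  have hreal : ∫ θ in Ioo 0 (2 * Real.pi), ‖h (circleMap 0 r θ)‖ ^ 2 =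
      2 * Real.pi * ‖h 0‖ ^ 2 + ∫ θ in Ioo 0 (2 * Real.pi), ‖h (circleMap 0 r θ) - h 0‖ ^ 2 := by
    have e1 : ∫ θ in Ioo 0 (2 * Real.pi), ‖h (circleMap 0 r θ)‖ ^ 2 =
        ∫ θ in Ioo 0 (2 * Real.pi), ((‖h 0‖ ^ 2 + ‖h (circleMap 0 r θ) - h 0‖ ^ 2) +
          2 * ((starRingEnd ℂ) (h 0) * (h (circleMap 0 r θ) - h 0)).re) :=
      integral_congr_ae (Eventually.of_forall hpt)
    have hc5 : Continuous fun θ : ℝ => ‖h 0‖ ^ 2 + ‖h (circleMap 0 r θ) - h 0‖ ^ 2 :=
      continuous_const.add hc2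
    rw [e1, integral_add (hint hc5) ((hint hc4).const_mul 2),
      integral_add (hint continuous_const) (hint hc2), integral_const_mul, hzero,
      setIntegral_const]
    simp [Real.volume_real_Ioo_of_le (show (0 : ℝ) ≤ 2 * Real.pi by positivity)]
  rw [← ofReal_integral_eq_lintegral_ofReal (hint hc1)
      (Eventually.of_forall fun θ => by positivity),
    ← ofReal_integral_eq_lintegral_ofReal (hint hc2)
      (Eventually.of_forall fun θ => by positivity), hreal,
    ENNReal.ofReal_add (by positivity) (integral_nonneg fun θ => by positivity),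
    ENNReal.ofReal_mul (by positivity)]

theorem const_of_circle {h : ℂ → ℂ} (hd : DifferentiableOn ℂ h (ball 0 1)) {r : ℝ} (hr0 : 0 < r)
    (hr1 : r < 1) {c : ℂ} (hz : ∀ θ ∈ Ioo 0 (2 * Real.pi), h (circleMap 0 r θ) = c) :
    ∀ t ∈ ball (0 : ℂ) 1, h t = c := by
  have hpi := Real.pi_pos
  have han : AnalyticOnNhd ℂ h (ball 0 1) := hd.analyticOnNhd isOpen_ball
  have hpre : IsPreconnected (ball (0 : ℂ) 1) := (convex_ball (0 : ℂ) 1).isPreconnected
  have hder : HasDerivAt (circleMap 0 r) (circleMap 0 r Real.pi * Complex.I) Real.pi :=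
    hasDerivAt_circleMap 0 r Real.pi
  have hne : circleMap 0 r Real.pi * Complex.I ≠ 0 :=
    mul_ne_zero (circleMap_ne_center hr0.ne') Complex.I_ne_zero
  have h1 : Tendsto (circleMap 0 r) (𝓝[≠] Real.pi) (𝓝[≠] (circleMap 0 r Real.pi)) := by
    refine tendsto_nhdsWithin_iff.mpr ⟨?_, ?_⟩
    · exact ((continuous_circleMap 0 r).tendsto Real.pi).mono_left nhdsWithin_le_nhds
    · exact hder.eventually_ne hne
  have h2 : ∀ᶠ θ in 𝓝[≠] Real.pi, h (circleMap 0 r θ) = c := by
    have h3 : Ioo 0 (2 * Real.pi) ∈ 𝓝 Real.pi := Ioo_mem_nhds hpi (by linarith)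
    filter_upwards [nhdsWithin_le_nhds h3] with θ hθ
    exact hz θ hθ
  have h4 : ∃ᶠ t in 𝓝[≠] (circleMap 0 r Real.pi), h t = c := h1.frequently h2.frequently
  intro t ht
  exact AnalyticOnNhd.eqOn_of_preconnected_of_frequently_eq han analyticOnNhd_const hpre
    (circle_mem hr0 hr1 Real.pi) h4 ht

end Pool.Agent.Lib.MP_85878b_an
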