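import Pool.Agent.Lib.MP_85878b_an.Cong
import Pool.Agent.Lib.MP_85878b_an.Koebe

/-! # Univalent variations with several disjoint discs in the complement -/

set_option autoImplicit false

namespace Pool.Agent.Lib.MP_85878b_an

open MeasureTheory Metric Set Filter Topology
open scoped ENNReal

/-- The composed variation: value and derivative after `k` steps. -/
noncomputable def pq (w : ℕ → ℂ) (ρ : ℕ → ℝ) (L : ℕ) (t : ℂ) : ℕ → ℂ → ℂ × ℂ
  | 0, x => (x, 1)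
  | k + 1, x =>
    ((pq w ρ L t k x).1 + ((pq w ρ L t k (w k)).2 * ρ k / 10) ^ 2 * t ^ (L + k) /
        ((pq w ρ L t k x).1 - (pq w ρ L t k (w k)).1),
      (pq w ρ L t k x).2 * (1 - ((pq w ρ L t k (w k)).2 * ρ k / 10) ^ 2 * t ^ (L + k) /
        ((pq w ρ L t k x).1 - (pq w ρ L t k (w k)).1) ^ 2))

/-- Pairwise disjoint discs. -/
structure Conf (w : ℕ → ℂ) (ρ : ℕ → ℝ) (N : ℕ) : Prop where
  pos : ∀ j < N, 0 < ρ j
  disj : ∀ i < N, ∀ j < N, i ≠ j → Disjoint (ball (w i) (ρ i)) (ball (w j) (ρ j))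

/-- The complement of the first `k` closed discs. -/
def VV (w : ℕ → ℂ) (ρ : ℕ → ℝ) (k : ℕ) : Set ℂ := {x | ∀ j < k, x ∉ closedBall (w j) (ρ j)}

theorem VV_open (w : ℕ → ℂ) (ρ : ℕ → ℝ) (k : ℕ) : IsOpen (VV w ρ k) := by
  have h : VV w ρ k = ⋂ j ∈ Finset.range k, (closedBall (w j) (ρ j))ᶜ := by
    ext x
    simp [VV]
  rw [h]
  exact isOpen_biInter_finset fun j _ => isClosed_closedBall.isOpen_compl

theorem VV_succ {w : ℕ → ℂ} {ρ : ℕ → ℝ} {k : ℕ} {x : ℂ} (hx : x ∈ VV w ρ (k + 1)) :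
    x ∈ VV w ρ k ∧ x ∉ closedBall (w k) (ρ k) :=
  ⟨fun j hj => hx j (by omega), hx k (by omega)⟩

theorem ball_sub {w : ℕ → ℂ} {ρ : ℕ → ℝ} {N : ℕ} (hc : Conf w ρ N) {j k : ℕ} (hj : j < N)
    (hkj : k ≤ j) : ball (w j) (ρ j) ⊆ VV w ρ k := by
  intro x hx i hi hxi
  have h1 := hc.disj i (by omega) j hj (by omega)
  have h2 : Disjoint (closure (ball (w i) (ρ i))) (ball (w j) (ρ j)) :=
    h1.closure_left isOpen_ball
  rw [closure_ball _ (hc.pos i (by omega)).ne'] at h2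
  exact Set.disjoint_left.mp h2 hxi hx

theorem koebe_ball {P : ℂ → ℂ} {Q w₀ : ℂ} {ρ : ℝ} (hρ : 0 < ρ)
    (hd : DifferentiableOn ℂ P (ball w₀ ρ)) (hi : InjOn P (ball w₀ ρ)) (hQ : HasDerivAt P Q w₀) :
    ball (P w₀) ‖Q * ρ / 10‖ ⊆ P '' ball w₀ ρ := by
  have hρc : (ρ : ℂ) ≠ 0 := by exact_mod_cast hρ.ne'
  have hmaps : ∀ u ∈ ball (0 : ℂ) 1, w₀ + ρ * u ∈ ball w₀ ρ := by
    intro u hu
    rw [mem_ball_zero_iff] at hu
    rw [mem_ball_iff_norm, add_sub_cancel_left, norm_mul, Complex.norm_real,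
      Real.norm_of_nonneg hρ.le]
    nlinarith
  have hFd : DifferentiableOn ℂ (fun u => P (w₀ + ρ * u)) (ball 0 1) := by
    refine hd.comp ?_ hmaps
    fun_prop
  have hFi : InjOn (fun u => P (w₀ + ρ * u)) (ball 0 1) := by
    intro x hx y hy hxy
    have h1 := hi (hmaps x hx) (hmaps y hy) hxy
    have h2 : (ρ : ℂ) * x = ρ * y := add_left_cancel h1
    exact mul_left_cancel₀ hρc h2
  have h1 := CcaPl.koebe_cover _ hFd hFi
  have hder : deriv (fun u : ℂ => P (w₀ + ρ * u)) 0 = Q * ρ := by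
    have h2 : HasDerivAt (fun u : ℂ => w₀ + ρ * u) ρ 0 := by
      simpa using ((hasDerivAt_id (0 : ℂ)).const_mul (ρ : ℂ)).const_add w₀
    have h3 : HasDerivAt P Q (w₀ + ρ * 0) := by rw [mul_zero, add_zero]; exact hQ
    exact (h3.comp (0 : ℂ) h2).deriv
  simp only [mul_zero, add_zero] at h1
  rw [hder] at h1
  have h4 : ‖Q * ρ / 10‖ = ‖Q * ρ‖ / 10 := by
    rw [norm_div, Complex.norm_ofNat]
  rw [h4]
  refine h1.trans ?_
  rintro _ ⟨u, hu, rfl⟩
  exact ⟨_, hmaps u hu, rfl⟩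

section

variable {w : ℕ → ℂ} {ρ : ℕ → ℝ} {N L : ℕ} {t : ℂ}

/-- Separation at step `k`. -/
theorem sep_of (hc : Conf w ρ N) {k : ℕ} (hk : k < N)
    (h1 : ∀ x ∈ VV w ρ k, HasDerivAt (fun x => (pq w ρ L t k x).1) (pq w ρ L t k x).2 x)
    (h2 : InjOn (fun x => (pq w ρ L t k x).1) (VV w ρ k)) :
    0 < ‖(pq w ρ L t k (w k)).2 * ρ k / 10‖ ∧ ∀ x ∈ VV w ρ k, x ∉ ball (w k) (ρ k) →
      ‖(pq w ρ L t k (w k)).2 * ρ k / 10‖ ≤ ‖(pq w ρ L t k x).1 - (pq w ρ L t k (w k)).1‖ := by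
  have hsub := ball_sub hc hk le_rfl
  have hρ := hc.pos k hk
  have hwk : w k ∈ VV w ρ k := hsub (mem_ball_self hρ)
  have hd : DifferentiableOn ℂ (fun x => (pq w ρ L t k x).1) (VV w ρ k) := fun x hx =>
    (h1 x hx).differentiableAt.differentiableWithinAt
  have hne : (pq w ρ L t k (w k)).2 ≠ 0 := by
    have h3 := CcaPl.deriv_ne_zero_of_injOn _ _ (VV_open w ρ k) hd h2 _ hwk
    rwa [(h1 _ hwk).deriv] at h3
  have hρc : (ρ k : ℂ) ≠ 0 := by exact_mod_cast hρ.ne'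
  refine ⟨norm_pos_iff.mpr (div_ne_zero (mul_ne_zero hne hρc) (by norm_num)), ?_⟩
  intro x hx hxb
  by_contra hlt
  rw [not_le] at hlt
  have h3 := koebe_ball hρ (hd.mono hsub) (h2.mono hsub) (h1 _ hwk)
  have h4 : (pq w ρ L t k x).1 ∈ ball (pq w ρ L t k (w k)).1
      ‖(pq w ρ L t k (w k)).2 * ρ k / 10‖ := by rwa [mem_ball_iff_norm]
  obtain ⟨y, hy, hxy⟩ := h3 h4
  have h5 : y = x := h2 (hsub hy) hx hxy
  rw [h5] at hy
  exact hxb hy

theorem step_ne (hL : 1 ≤ L) (ht : t ∈ ball (0 : ℂ) 1) {σ u v : ℂ} {k : ℕ} (hσ : 0 < ‖σ‖)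
    (hu : ‖σ‖ ≤ ‖u‖) (hv : ‖σ‖ ≤ ‖v‖) : u * v - σ ^ 2 * t ^ (L + k) ≠ 0 := by
  intro h
  have h1 : u * v = σ ^ 2 * t ^ (L + k) := sub_eq_zero.mp h
  have h2 := congrArg norm h1
  rw [norm_mul, norm_mul, norm_pow, norm_pow] at h2
  have h3 : ‖t‖ ^ (L + k) < 1 := pow_lt_one₀ (norm_nonneg t) (mem_ball_zero_iff.mp ht) (by omega)
  have h4 : ‖σ‖ * ‖σ‖ ≤ ‖u‖ * ‖v‖ := mul_le_mul hu hv hσ.le (norm_nonneg u)
  have h5 : ‖σ‖ ^ 2 * ‖t‖ ^ (L + k) < ‖σ‖ ^ 2 * 1 := by gcongr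
  nlinarith

theorem main_step (hc : Conf w ρ N) (hL : 1 ≤ L) (ht : t ∈ ball (0 : ℂ) 1) (k : ℕ) (hk : k ≤ N) :
    (∀ x ∈ VV w ρ k, HasDerivAt (fun x => (pq w ρ L t k x).1) (pq w ρ L t k x).2 x) ∧
    InjOn (fun x => (pq w ρ L t k x).1) (VV w ρ k) := by
  induction k with
  | zero =>
    refine ⟨fun x _ => ?_, fun x _ y _ h => h⟩
    exact hasDerivAt_id x
  | succ k ih =>
    obtain ⟨ih1, ih2⟩ := ih (by omega)
    obtain ⟨hσ, hsep⟩ := sep_of hc (show k < N by omega) ih1 ih2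
    have hfar : ∀ x ∈ VV w ρ (k + 1), ‖(pq w ρ L t k (w k)).2 * ρ k / 10‖ ≤
        ‖(pq w ρ L t k x).1 - (pq w ρ L t k (w k)).1‖ := fun x hx =>
      hsep x (VV_succ hx).1 fun hb => (VV_succ hx).2 (ball_subset_closedBall hb)
    have hne : ∀ x ∈ VV w ρ (k + 1), (pq w ρ L t k x).1 - (pq w ρ L t k (w k)).1 ≠ 0 := fun x hx =>
      norm_pos_iff.mp (lt_of_lt_of_le hσ (hfar x hx))
    constructor
    · intro x hx
      have h1 := ih1 x (VV_succ hx).1
      have h2 : HasDerivAt (fun x => (pq w ρ L t k x).1 - (pq w ρ L t k (w k)).1)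
          (pq w ρ L t k x).2 x := h1.sub_const _
      have h3 := h1.add ((hasDerivAt_const x (((pq w ρ L t k (w k)).2 * ρ k / 10) ^ 2 *
        t ^ (L + k))).div h2 (hne x hx))
      refine h3.congr_deriv ?_
      change _ = (pq w ρ L t k x).2 * (1 - ((pq w ρ L t k (w k)).2 * ρ k / 10) ^ 2 * t ^ (L + k) /
        ((pq w ρ L t k x).1 - (pq w ρ L t k (w k)).1) ^ 2)
      ring
    · intro x hx y hy hxy
      have hxy' : (pq w ρ L t k x).1 + ((pq w ρ L t k (w k)).2 * ρ k / 10) ^ 2 * t ^ (L + k) /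
          ((pq w ρ L t k x).1 - (pq w ρ L t k (w k)).1) =
          (pq w ρ L t k y).1 + ((pq w ρ L t k (w k)).2 * ρ k / 10) ^ 2 * t ^ (L + k) /
          ((pq w ρ L t k y).1 - (pq w ρ L t k (w k)).1) := hxy
      have h1 := step_ne (k := k) hL ht hσ (hfar x hx) (hfar y hy)
      have hx0 := hne x hx
      have hy0 := hne y hy
      apply ih2 (VV_succ hx).1 (VV_succ hy).1
      change (pq w ρ L t k x).1 = (pq w ρ L t k y).1
      generalize ((pq w ρ L t k (w k)).2 * ρ k / 10) ^ 2 * t ^ (L + k) = b at *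
      generalize (pq w ρ L t k (w k)).1 = c at *
      generalize (pq w ρ L t k x).1 = p at *
      generalize (pq w ρ L t k y).1 = q at *
      have h3 : (p - q) * ((p - c) * (q - c) - b) = 0 := by
        have e1 : (p + b / (p - c)) * ((p - c) * (q - c)) =
            p * ((p - c) * (q - c)) + b * (q - c) := by field_simp
        have e2 : (q + b / (q - c)) * ((p - c) * (q - c)) =
            q * ((p - c) * (q - c)) + b * (p - c) := by field_simp
        rw [hxy', e2] at e1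
        linear_combination -e1
      exact sub_eq_zero.mp ((mul_eq_zero.mp h3).resolve_right h1)

theorem sep (hc : Conf w ρ N) (hL : 1 ≤ L) (ht : t ∈ ball (0 : ℂ) 1) {k : ℕ} (hk : k < N) :
    0 < ‖(pq w ρ L t k (w k)).2 * ρ k / 10‖ ∧ ∀ x ∈ VV w ρ (k + 1),
      ‖(pq w ρ L t k (w k)).2 * ρ k / 10‖ ≤ ‖(pq w ρ L t k x).1 - (pq w ρ L t k (w k)).1‖ := by
  obtain ⟨h1, h2⟩ := main_step hc hL ht k hk.le
  obtain ⟨h3, h4⟩ := sep_of hc hk h1 h2
  exact ⟨h3, fun x hx => h4 x (VV_succ hx).1 fun hb => (VV_succ hx).2 (ball_subset_closedBall hb)⟩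

/-- Both components are congruent to their values at `t = 0`. -/
theorem cong_pq (hc : Conf w ρ N) (hL : 1 ≤ L) (k : ℕ) (hk : k ≤ N) :
    ∀ x ∈ VV w ρ k, Cong L (fun t => (pq w ρ L t k x).1) x ∧
      Cong L (fun t => (pq w ρ L t k x).2) 1 := by
  induction k with
  | zero =>
    intro x _
    exact ⟨Cong.const L x, Cong.const L 1⟩
  | succ k ih =>
    intro x hx
    have hwk : w k ∈ VV w ρ k := ball_sub hc (by omega) le_rfl (mem_ball_self (hc.pos k (by omega)))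
    obtain ⟨a1, a2⟩ := ih (by omega) x (VV_succ hx).1
    obtain ⟨b1, b2⟩ := ih (by omega) (w k) hwk
    have hβ : DifferentiableOn ℂ (fun t => ((pq w ρ L t k (w k)).2 * ρ k / 10) ^ 2) (ball 0 1) :=
      ((b2.diff.mul_const _).div_const _).pow 2
    have hden : ∀ t ∈ ball (0 : ℂ) 1, (pq w ρ L t k x).1 - (pq w ρ L t k (w k)).1 ≠ 0 := by
      intro t ht
      obtain ⟨h3, h4⟩ := sep hc hL ht (show k < N by omega)
      exact norm_pos_iff.mp (lt_of_lt_of_le h3 (h4 x hx))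
    have hdd : DifferentiableOn ℂ (fun t => (pq w ρ L t k x).1 - (pq w ρ L t k (w k)).1)
        (ball 0 1) := a1.diff.sub b1.diff
    have hx0 : x - w k ≠ 0 := by
      intro h
      apply (VV_succ hx).2
      rw [sub_eq_zero.mp h]
      exact mem_closedBall_self (hc.pos k (by omega)).le
    constructor
    · have h1 : Cong L (fun t => ((pq w ρ L t k (w k)).2 * ρ k / 10) ^ 2 /
          ((pq w ρ L t k x).1 - (pq w ρ L t k (w k)).1) * t ^ (L + k)) 0 :=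
        Cong.tmul (hβ.div hdd hden) k
      have h2 := a1.add h1
      rw [add_zero] at h2
      refine h2.congr fun t _ => ?_
      change (pq w ρ L t k x).1 + ((pq w ρ L t k (w k)).2 * ρ k / 10) ^ 2 * t ^ (L + k) /
        ((pq w ρ L t k x).1 - (pq w ρ L t k (w k)).1) = _
      ring
    · have h1 : Cong L (fun t => ((pq w ρ L t k (w k)).2 * ρ k / 10) ^ 2 /
          ((pq w ρ L t k x).1 - (pq w ρ L t k (w k)).1) ^ 2 * t ^ (L + k)) 0 :=
        Cong.tmul (hβ.div (hdd.pow 2) fun t ht => pow_ne_zero 2 (hden t ht)) k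
      have h2 := a2.mul ((Cong.const L 1).sub h1)
      rw [sub_zero, mul_one] at h2
      refine h2.congr fun t _ => ?_
      change (pq w ρ L t k x).2 * (1 - ((pq w ρ L t k (w k)).2 * ρ k / 10) ^ 2 * t ^ (L + k) /
        ((pq w ρ L t k x).1 - (pq w ρ L t k (w k)).1) ^ 2) = _
      ring

end

end Pool.Agent.Lib.MP_85878b_an
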