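import Pool.Agent.Lib.MP_85878b_an.Defs
import Pool.Agent.Lib.MP_cca10c_ag.Pl.UniKoebe

/-! # Schwarzian derivatives of univalent functions: elementary facts -/

set_option autoImplicit false

namespace Pool.Agent.Lib.MP_85878b_an

open MeasureTheory Metric Set
open scoped ENNReal

theorem d1 {f : ℂ → ℂ} {U : Set ℂ} (hU : IsOpen U) (hd : DifferentiableOn ℂ f U) {z : ℂ}
    (hz : z ∈ U) : HasDerivAt f (deriv f z) z :=
  (hd.differentiableAt (hU.mem_nhds hz)).hasDerivAt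

theorem schw_formula {f : ℂ → ℂ} {U : Set ℂ} (hU : IsOpen U) (hd : DifferentiableOn ℂ f U)
    {z : ℂ} (hz : z ∈ U) (h0 : deriv f z ≠ 0) :
    schw f z = deriv (deriv (deriv f)) z / deriv f z -
      3 / 2 * (deriv (deriv f) z / deriv f z) ^ 2 := by
  have hd1 := hd.deriv hU
  have hd2 := hd1.deriv hU
  have h := (d1 hU hd2 hz).div (d1 hU hd1 hz) h0
  unfold schw
  have e : deriv (fun w => deriv (deriv f) w / deriv f w) z =
      (deriv (deriv (deriv f)) z * deriv f z - deriv (deriv f) z * deriv (deriv f) z) /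
        deriv f z ^ 2 := h.deriv
  rw [e]
  field_simp
  ring

/-- If `f''/f'` is given near `z` by a function `p` with derivative `q` at `z`. -/
theorem schw_of {f p : ℂ → ℂ} {z q : ℂ} (hp : (fun w => deriv (deriv f) w / deriv f w) =ᶠ[nhds z] p)
    (hq : HasDerivAt p q z) : schw f z = q - 1 / 2 * p z ^ 2 := by
  unfold schw
  rw [hp.deriv_eq, hq.deriv]
  have h1 : deriv (deriv f) z / deriv f z = p z := hp.self_of_nhds
  rw [h1]

theorem schw_affine (f : ℂ → ℂ) {c : ℂ} (hc : c ≠ 0) (d : ℂ) :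
    schw (fun z => c * f z + d) = schw f := by
  have h1 : deriv (fun z => c * f z + d) = fun z => c * deriv f z := by
    funext z
    rw [deriv_add_const, deriv_const_mul_field]
  have h2 : deriv (fun z => c * deriv f z) = fun z => c * deriv (deriv f) z := by
    funext z
    rw [deriv_const_mul_field]
  funext z
  unfold schw
  rw [h1, h2]
  simp only [mul_div_mul_left _ _ hc]

/-- A univalent function can be normalised without changing the Schwarzian. -/
theorem normalise {f : ℂ → ℂ} (hd : DifferentiableOn ℂ f (ball 0 1)) (hi : InjOn f (ball 0 1)) :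
    ∃ g, ClassS g ∧ schw g = schw f := by
  have h0 : (0 : ℂ) ∈ ball (0 : ℂ) 1 := mem_ball_self one_pos
  have hne : deriv f 0 ≠ 0 := CcaPl.deriv_ne_zero_of_injOn f _ isOpen_ball hd hi 0 h0
  have hne' : (deriv f 0)⁻¹ ≠ 0 := inv_ne_zero hne
  refine ⟨fun z => (deriv f 0)⁻¹ * f z + -((deriv f 0)⁻¹ * f 0), ⟨?_, ?_, ?_, ?_⟩,
    schw_affine f hne' _⟩
  · exact (hd.const_mul _).add_const _
  · intro x hx y hy hxy
    apply hi hx hy
    have h1 : (deriv f 0)⁻¹ * f x = (deriv f 0)⁻¹ * f y := add_right_cancel hxy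
    exact mul_left_cancel₀ hne' h1
  · simp
  · rw [deriv_add_const, deriv_const_mul_field, inv_mul_cancel₀ hne]

theorem schw_rescale {f : ℂ → ℂ} {z₀ : ℂ} {R : ℝ} (hR : 0 < R) :
    schw (fun u => f (z₀ + R * u)) 0 = R ^ 2 * schw f z₀ := by
  have hRc : (R : ℂ) ≠ 0 := by exact_mod_cast hR.ne'
  have key : ∀ g : ℂ → ℂ, deriv (fun u => g (z₀ + R * u)) = fun u => R * deriv g (z₀ + R * u) := by
    intro g
    funext u
    have h1 := deriv_comp_mul_left (R : ℂ) (fun v => g (z₀ + v)) u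
    rw [h1, smul_eq_mul, deriv_comp_const_add]
  have h1 := key f
  have h2 : deriv (fun u => (R : ℂ) * deriv f (z₀ + R * u)) =
      fun u => R * (R * deriv (deriv f) (z₀ + R * u)) := by
    funext u
    rw [deriv_const_mul_field, key (deriv f)]
  unfold schw
  rw [h1, h2]
  have h3 : (fun w => (R : ℂ) * (R * deriv (deriv f) (z₀ + R * w)) / (R * deriv f (z₀ + R * w))) =
      fun w => R * (fun v => deriv (deriv f) v / deriv f v) (z₀ + R * w) := by
    funext w
    rw [mul_div_mul_left _ _ hRc, mul_div_assoc]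
  rw [h3, deriv_const_mul_field, key (fun v => deriv (deriv f) v / deriv f v)]
  simp only [mul_zero, add_zero]
  rw [mul_div_mul_left _ _ hRc]
  ring

/-- A weak form of the theorem of Kraus and Nehari. -/
theorem weak_kraus : ∃ C : ℝ, 0 ≤ C ∧ ∀ f : ℂ → ℂ, DifferentiableOn ℂ f (ball 0 1) →
    InjOn f (ball 0 1) → ∀ z ∈ ball (0 : ℂ) 1, ‖schw f z‖ * (1 - ‖z‖ ^ 2) ^ 2 ≤ C := by
  obtain ⟨K, hK1, hK⟩ := CcaPl.koebe_distortion
  have h0 : (0 : ℂ) ∈ ball (0 : ℂ) 1 := mem_ball_self one_pos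
  have hzero : ∀ f : ℂ → ℂ, DifferentiableOn ℂ f (ball 0 1) → InjOn f (ball 0 1) →
      ‖schw f 0‖ ≤ 2 * K + 3 / 2 * K ^ 2 := by
    intro f hd hi
    have hne : deriv f 0 ≠ 0 := CcaPl.deriv_ne_zero_of_injOn f _ isOpen_ball hd hi 0 h0
    have hnp : 0 < ‖deriv f 0‖ := norm_pos_iff.mpr hne
    have hd2 : DifferentiableOn ℂ (deriv (deriv f)) (ball 0 1) :=
      (hd.deriv isOpen_ball).deriv isOpen_ball
    have h2 : ‖deriv (deriv f) 0‖ ≤ K * ‖deriv f 0‖ := hK f hd hi 0 (by simp)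
    have h3 : ‖deriv (deriv (deriv f)) 0‖ ≤ (K * ‖deriv f 0‖) / (1 / 2) := by
      refine Complex.norm_deriv_le_of_forall_mem_sphere_norm_le (by norm_num) ?_ ?_
      · refine (hd2.mono ?_).diffContOnCl
        refine (closure_ball_subset_closedBall).trans (closedBall_subset_ball ?_)
        norm_num
      · intro z hz
        refine hK f hd hi z ?_
        rw [mem_sphere_zero_iff_norm] at hz
        exact hz.le
    rw [schw_formula isOpen_ball hd h0 hne]
    have h4 : ‖deriv (deriv (deriv f)) 0 / deriv f 0‖ ≤ 2 * K := by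
      rw [norm_div, div_le_iff₀ hnp]
      linarith
    have h5 : ‖deriv (deriv f) 0 / deriv f 0‖ ≤ K := by
      rw [norm_div, div_le_iff₀ hnp]
      exact h2
    calc ‖deriv (deriv (deriv f)) 0 / deriv f 0 - 3 / 2 * (deriv (deriv f) 0 / deriv f 0) ^ 2‖
        ≤ ‖deriv (deriv (deriv f)) 0 / deriv f 0‖ +
          ‖3 / 2 * (deriv (deriv f) 0 / deriv f 0) ^ 2‖ := norm_sub_le _ _
      _ = ‖deriv (deriv (deriv f)) 0 / deriv f 0‖ +
          3 / 2 * ‖deriv (deriv f) 0 / deriv f 0‖ ^ 2 := by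
          rw [norm_mul, norm_pow]
          norm_num
      _ ≤ 2 * K + 3 / 2 * K ^ 2 := by gcongr
  refine ⟨4 * (2 * K + 3 / 2 * K ^ 2), by positivity, ?_⟩
  intro f hd hi z hz
  have hz1 : ‖z‖ < 1 := mem_ball_zero_iff.mp hz
  obtain ⟨R, hR⟩ : ∃ R : ℝ, R = 1 - ‖z‖ := ⟨_, rfl⟩
  have hRpos : 0 < R := by rw [hR]; linarith
  have hRc : (R : ℂ) ≠ 0 := by exact_mod_cast hRpos.ne'
  have hmaps : ∀ u ∈ ball (0 : ℂ) 1, z + R * u ∈ ball (0 : ℂ) 1 := by
    intro u hu
    rw [mem_ball_zero_iff] at hu ⊢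
    calc ‖z + R * u‖ ≤ ‖z‖ + ‖(R : ℂ) * u‖ := norm_add_le _ _
      _ = ‖z‖ + R * ‖u‖ := by rw [norm_mul, Complex.norm_real, Real.norm_of_nonneg hRpos.le]
      _ < ‖z‖ + R * 1 := by gcongr
      _ = 1 := by rw [hR]; ring
  have hFd : DifferentiableOn ℂ (fun u => f (z + R * u)) (ball 0 1) := by
    refine hd.comp ?_ hmaps
    fun_prop
  have hFi : InjOn (fun u => f (z + R * u)) (ball 0 1) := by
    intro x hx y hy hxy
    have h1 := hi (hmaps x hx) (hmaps y hy) hxy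
    have h2 : (R : ℂ) * x = R * y := add_left_cancel h1
    exact mul_left_cancel₀ hRc h2
  have h1 := hzero _ hFd hFi
  rw [schw_rescale hRpos, norm_mul, norm_pow, Complex.norm_real, Real.norm_of_nonneg hRpos.le]
    at h1
  have h2 : (1 - ‖z‖ ^ 2) ≤ 2 * R := by
    rw [hR]
    nlinarith [norm_nonneg z]
  have h3 : 0 ≤ 1 - ‖z‖ ^ 2 := (one_sub_pos hz).le
  calc ‖schw f z‖ * (1 - ‖z‖ ^ 2) ^ 2 ≤ ‖schw f z‖ * (2 * R) ^ 2 := by gcongr
    _ = 4 * (R ^ 2 * ‖schw f z‖) := by ring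
    _ ≤ _ := by linarith

theorem mult_lt_top {a : ℝ} (ha : -1 < a) {f : ℂ → ℂ} (hf : ClassS f) :
    mult a (schw f) ≠ ∞ := by
  obtain ⟨C, hC0, hC⟩ := weak_kraus
  have h1 : normE (schw f) ≤ ENNReal.ofReal C :=
    iSup₂_le fun z hz => ENNReal.ofReal_le_ofReal (hC f hf.diff hf.inj z hz)
  have h2 := mult_le ha (schw f)
  refine ne_of_lt (lt_of_le_of_lt h2 ?_)
  have h3 : normE (schw f) < ∞ := lt_of_le_of_lt h1 ENNReal.ofReal_lt_top
  exact ENNReal.mul_lt_top ENNReal.ofReal_lt_top (ENNReal.pow_lt_top h3)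

end Pool.Agent.Lib.MP_85878b_an
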