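import Pool.Agent.Lib.MP_85878b_an.Disc
import Pool.Agent.Lib.MP_85878b_an.Lower
import Mathlib.MeasureTheory.Covering.Vitali

/-! # Functions with uniformly thick complement are far from maximal -/

set_option autoImplicit false

namespace Pool.Agent.Lib.MP_85878b_an

open MeasureTheory Metric Set Filter Topology
open scoped ENNReal

/-- The complement of the image of the disc is uniformly thick with constant `c`: for every `z` in
the disc some disc `B(w, ρ)` in the complement has `ρ |f'(z)| (1 - |z|²) ≥ c |f(z) - w|²`. -/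
def Thick (f : ℂ → ℂ) (c : ℝ) : Prop :=
  ∀ z ∈ ball (0 : ℂ) 1, ∃ (w : ℂ) (ρ : ℝ), 0 < ρ ∧ ball w ρ ⊆ (f '' ball 0 1)ᶜ ∧
    c * ‖f z - w‖ ^ 2 ≤ ρ * (‖deriv f z‖ * (1 - ‖z‖ ^ 2))

/-- Distance to the image. -/
noncomputable def ee (f : ℂ → ℂ) (x : ℂ) : ℝ := infDist x (f '' ball 0 1)

/-- The coefficient of the disc with centre `x` and radius `ee f x / 4`. -/
noncomputable def cx (f : ℂ → ℂ) (x z : ℂ) : ℂ :=
  6 * (((ee f x / 4 : ℝ) : ℂ) / 10) ^ 2 * deriv f z ^ 2 / ((f z - x) ^ 2) ^ 2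

section

variable {f : ℂ → ℂ} {a : ℝ} {M : ℝ≥0∞} {φ : ℂ → ℂ}

theorem ee_le {x z : ℂ} (hz : z ∈ ball (0 : ℂ) 1) : ee f x ≤ ‖f z - x‖ := by
  have h1 : infDist x (f '' ball 0 1) ≤ dist x (f z) := infDist_le_dist_of_mem ⟨z, hz, rfl⟩
  rwa [dist_comm, dist_eq_norm] at h1

theorem ee_lip (x y : ℂ) : ee f x ≤ ee f y + ‖x - y‖ := by
  have h1 := infDist_le_infDist_add_dist (s := f '' ball 0 1) (x := x) (y := y)
  rwa [dist_eq_norm] at h1

theorem finset_energy (hf : ClassS f) (hmax : ∀ g, ClassS g → mult a (schw g) ≤ M)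
    (hφ : DifferentiableOn ℂ φ (ball 0 1)) (hφ1 : berg a φ = 1) (F : Finset ℂ)
    (hpos : ∀ x ∈ F, 0 < ee f x)
    (hdisj : ∀ x ∈ F, ∀ y ∈ F, x ≠ y → Disjoint (ball x (ee f x / 4)) (ball y (ee f y / 4))) :
    berg (a + 4) (fun z => schw f z * φ z) +
      ∑ x ∈ F, berg (a + 4) (fun z => cx f x z * φ z) ≤ M := by
  obtain ⟨w, hw⟩ : ∃ w : ℕ → ℂ, w = fun j =>
    if h : j < F.card then (F.equivFin.symm ⟨j, h⟩ : ℂ) else 0 := ⟨_, rfl⟩
  have hwj : ∀ j (h : j < F.card), w j = (F.equivFin.symm ⟨j, h⟩ : ℂ) := by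
    intro j h
    rw [hw]
    exact dif_pos h
  have hmem : ∀ j < F.card, w j ∈ F := by
    intro j h
    rw [hwj j h]
    exact (F.equivFin.symm ⟨j, h⟩).2
  have hinj : ∀ i < F.card, ∀ j < F.card, i ≠ j → w i ≠ w j := by
    intro i hi j hj hij h
    rw [hwj i hi, hwj j hj] at h
    have h1 := F.equivFin.symm.injective (Subtype.ext h)
    exact hij (Fin.mk.inj_iff.mp h1)
  have hc : Conf w (fun j => ee f (w j) / 4) F.card := by
    refine ⟨fun j hj => ?_, fun i hi j hj hij => ?_⟩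
    · have := hpos _ (hmem j hj)
      positivity
    · exact hdisj _ (hmem i hi) _ (hmem j hj) (hinj i hi j hj hij)
  have ho : Outside f w (fun j => ee f (w j) / 4) F.card := by
    intro j hj z hz hcon
    have h1 := ee_le (f := f) (x := w j) hz
    have h2 := hpos _ (hmem j hj)
    rw [mem_ball_iff_norm] at hcon
    linarith
  have h1 := multi_energy hf hmax hφ hφ1 hc ho
  have h2 : ∑ k ∈ Finset.range F.card, berg (a + 4)
      (fun z => cc f w (fun j => ee f (w j) / 4) k z * φ z) =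
      ∑ x ∈ F, berg (a + 4) (fun z => cx f x z * φ z) := by
    rw [Finset.sum_range]
    have h3 : ∀ i : Fin F.card, berg (a + 4)
        (fun z => cc f w (fun j => ee f (w j) / 4) i z * φ z) =
        berg (a + 4) (fun z => cx f (F.equivFin.symm i : ℂ) z * φ z) := by
      intro i
      have h4 : w i = (F.equivFin.symm i : ℂ) := hwj i i.2
      unfold cc cx
      rw [← h4]
    rw [Finset.sum_congr rfl fun i _ => h3 i]
    rw [Equiv.sum_comp F.equivFin.symm
      (fun x : F => berg (a + 4) (fun z => cx f (x : ℂ) z * φ z))]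
    exact Finset.sum_coe_sort F (fun x => berg (a + 4) (fun z => cx f x z * φ z))
  rw [h2] at h1
  exact h1

theorem cx_cont (hf : ClassS f) {x : ℂ} (hx : 0 < ee f x) : ContinuousOn (cx f x) (ball 0 1) := by
  unfold cx
  have h1 : ContinuousOn f (ball 0 1) := hf.diff.continuousOn
  have h2 : ContinuousOn (deriv f) (ball 0 1) := (hf.diff.deriv isOpen_ball).continuousOn
  refine ContinuousOn.div (continuousOn_const.mul (h2.pow 2))
    (((h1.sub continuousOn_const).pow 2).pow 2) fun z hz => ?_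
  refine pow_ne_zero 2 (pow_ne_zero 2 fun h => ?_)
  have := ee_le (f := f) (x := x) hz
  rw [h, norm_zero] at this
  linarith

/-- The pointwise lower bound from a maximal family of disjoint Whitney discs. -/
theorem point_low {c : ℝ} (hc : 0 < c) {u : Set ℂ}
    (hu : ∀ x : ℂ, 0 < ee f x → ∃ b ∈ u, (ball x (ee f x / 4) ∩ ball b (ee f b / 4)).Nonempty)
    {z w : ℂ} {ρ : ℝ} (hz : z ∈ ball (0 : ℂ) 1) (hρ : 0 < ρ)
    (hball : ball w ρ ⊆ (f '' ball 0 1)ᶜ)
    (hcz : c * ‖f z - w‖ ^ 2 ≤ ρ * (‖deriv f z‖ * (1 - ‖z‖ ^ 2))) :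
    ∃ b ∈ u, 6 / 100 * (27 / 500 * c) ^ 2 ≤ ‖cx f b z‖ * (1 - ‖z‖ ^ 2) ^ 2 := by
  have hew : ρ ≤ ee f w := by
    by_contra hlt
    rw [not_le] at hlt
    have hne : (f '' ball 0 1).Nonempty := ⟨f z, z, hz, rfl⟩
    obtain ⟨y, hy, hyd⟩ := (infDist_lt_iff hne).mp hlt
    have h1 : y ∈ ball w ρ := by rwa [mem_ball, dist_comm]
    exact hball h1 hy
  have hew0 : 0 < ee f w := lt_of_lt_of_le hρ hew
  obtain ⟨b, hb, y, hy1, hy2⟩ := hu w hew0
  refine ⟨b, hb, ?_⟩
  rw [mem_ball, dist_eq_norm] at hy1 hy2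
  have hwb : ‖w - b‖ < ee f w / 4 + ee f b / 4 := by
    have e : w - b = -(y - w) + (y - b) := by ring
    rw [e]
    refine lt_of_le_of_lt (norm_add_le _ _) ?_
    rw [norm_neg]
    linarith
  have h1 := ee_lip (f := f) w b
  have h2 := ee_lip (f := f) b w
  rw [norm_sub_rev] at h2
  have hzb : ‖f z - b‖ ≤ 5 / 3 * ‖f z - w‖ := by
    have h3 : ‖f z - b‖ ≤ ‖f z - w‖ + ‖w - b‖ := by
      have e : f z - b = (f z - w) + (w - b) := by ring
      rw [e]
      exact norm_add_le _ _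
    have h4 := ee_le (f := f) (x := w) hz
    linarith
  have heb : 3 / 5 * ρ ≤ ee f b := by linarith
  have heb0 : 0 < ee f b := by linarith
  have hzb0 : 0 < ‖f z - b‖ := lt_of_lt_of_le heb0 (ee_le hz)
  have hp := one_sub_pos hz
  obtain ⟨D, hD⟩ : ∃ D : ℝ, D = ‖deriv f z‖ * (1 - ‖z‖ ^ 2) := ⟨_, rfl⟩
  have hD0 : 0 ≤ D := by rw [hD]; positivity
  rw [← hD] at hcz
  have hq : 27 / 500 * c ≤ ee f b / 4 * D / ‖f z - b‖ ^ 2 := by
    rw [le_div_iff₀ (by positivity)]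
    have h5 : ‖f z - b‖ ^ 2 ≤ (5 / 3 * ‖f z - w‖) ^ 2 := by gcongr
    have h6 : 3 / 5 * ρ * D ≤ ee f b * D := by gcongr
    calc 27 / 500 * c * ‖f z - b‖ ^ 2 ≤ 27 / 500 * c * (5 / 3 * ‖f z - w‖) ^ 2 := by gcongr
      _ = 3 / 20 * (c * ‖f z - w‖ ^ 2) := by ring
      _ ≤ 3 / 20 * (ρ * D) := by gcongr
      _ = 3 / 5 * ρ * D / 4 := by ring
      _ ≤ ee f b * D / 4 := by gcongr
      _ = ee f b / 4 * D := by ring
  have hnorm : ‖cx f b z‖ * (1 - ‖z‖ ^ 2) ^ 2 = 6 / 100 * (ee f b / 4 * D / ‖f z - b‖ ^ 2) ^ 2 := by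
    unfold cx
    rw [norm_div, norm_mul, norm_mul, norm_pow, norm_pow, norm_pow, norm_pow, norm_div,
      Complex.norm_real, Real.norm_of_nonneg (by positivity), Complex.norm_ofNat,
      Complex.norm_ofNat, hD]
    field_simp
    ring
  rw [hnorm]
  gcongr

/-- The gap between a function with uniformly thick complement and the supremum. -/
theorem thick_gap (ha : -1 < a) (hf : ClassS f)
    (hmax : ∀ g, ClassS g → mult a (schw g) ≤ M) {c : ℝ} (hc : 0 < c) (hthick : Thick f c) :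
    mult a (schw f) + ENNReal.ofReal ((a + 5) / (a + 1) * (6 / 100 * (27 / 500 * c) ^ 2) ^ 2) ≤
      M := by
  have hpi := Real.pi_pos
  have ha1 : 0 < a + 1 := by linarith
  have ha5 : 0 < a + 5 := by linarith
  have h0m : (0 : ℂ) ∈ ball (0 : ℂ) 1 := mem_ball_self one_pos
  -- the maximal family
  obtain ⟨u, hut, hud, huc⟩ := Vitali.exists_disjoint_subfamily_covering_enlargement
    (fun x : ℂ => ball x (ee f x / 4)) {x | 0 < ee f x} (fun _ => 1) 2 (by norm_num)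
    (fun _ _ => by norm_num) 1 (fun _ _ => le_rfl) (fun x hx => by
      have hx' : 0 < ee f x := hx
      exact ⟨x, mem_ball_self (by positivity)⟩)
  have hu : ∀ x : ℂ, 0 < ee f x → ∃ b ∈ u,
      (ball x (ee f x / 4) ∩ ball b (ee f b / 4)).Nonempty := by
    intro x hx
    obtain ⟨b, hb, hb2, -⟩ := huc x hx
    exact ⟨b, hb, hb2⟩
  have hupos : ∀ x ∈ u, 0 < ee f x := fun x hx => hut hx
  have hcount : u.Countable := hud.countable_of_isOpen (fun _ _ => isOpen_ball) fun x hx => by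
    have := hupos x hx
    exact ⟨x, mem_ball_self (by positivity)⟩
  obtain ⟨κ, hκ⟩ : ∃ κ : ℝ, κ = (6 / 100 * (27 / 500 * c) ^ 2) ^ 2 := ⟨_, rfl⟩
  have hκ0 : 0 < κ := by rw [hκ]; positivity
  obtain ⟨m, hm⟩ : ∃ m, m = ENNReal.ofReal ((a + 5) / (a + 1) * κ) := ⟨_, rfl⟩
  rw [← hκ, ← hm]
  have hmain : ∀ φ : ℂ → ℂ, DifferentiableOn ℂ φ (ball 0 1) → berg a φ = 1 →
      berg (a + 4) (fun z => schw f z * φ z) + m ≤ M := by
    intro φ hφ hφ1
    have hWm : AEMeasurable (fun z : ℂ => ENNReal.ofReal (‖φ z‖ ^ 2 * (1 - ‖z‖ ^ 2) ^ (a + 4)))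
        (volume.restrict (ball (0 : ℂ) 1)) := by
      refine ENNReal.measurable_ofReal.comp_aemeasurable (AEMeasurable.mul ?_ ?_)
      · exact ((hφ.continuousOn.aemeasurable measurableSet_ball).norm).pow_const 2
      · exact ((measurable_const.sub
          (measurable_norm.pow_const 2)).pow_const (a + 4)).aemeasurable
    have hcu : Countable u := hcount.to_subtype
    have h1 : berg (a + 4) (fun z => schw f z * φ z) +
        ∑' x : u, berg (a + 4) (fun z => cx f (x : ℂ) z * φ z) ≤ M := by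
      rw [ENNReal.tsum_eq_iSup_sum, ENNReal.add_iSup]
      refine iSup_le fun F => ?_
      classical
      have h2 := finset_energy hf hmax hφ hφ1 (F.image (fun x : u => (x : ℂ))) ?_ ?_
      · rw [Finset.sum_image (fun x _ y _ h => Subtype.ext h)] at h2
        exact h2
      · intro x hx
        obtain ⟨y, _, rfl⟩ := Finset.mem_image.mp hx
        exact hupos _ y.2
      · intro x hx y hy hxy
        obtain ⟨x', _, rfl⟩ := Finset.mem_image.mp hx
        obtain ⟨y', _, rfl⟩ := Finset.mem_image.mp hy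
        exact hud x'.2 y'.2 hxy
    refine le_trans (add_le_add_right ?_ _) h1
    -- the sum is at least `m`
    have hberg : ∀ k : ℂ → ℂ, berg (a + 4) (fun z => k z * φ z) =
        ENNReal.ofReal ((a + 4 + 1) / Real.pi) * ∫⁻ z in ball (0 : ℂ) 1,
          ENNReal.ofReal (‖φ z‖ ^ 2 * (1 - ‖z‖ ^ 2) ^ (a + 4)) * ENNReal.ofReal (‖k z‖ ^ 2) := by
      intro k
      unfold berg
      congr 1
      refine setLIntegral_congr_fun measurableSet_ball fun z hz => ?_
      have hp := one_sub_pos hz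
      rw [← ENNReal.ofReal_mul (by positivity), norm_mul]
      congr 1
      ring
    have h3 : ∑' x : u, berg (a + 4) (fun z => cx f (x : ℂ) z * φ z) =
        ENNReal.ofReal ((a + 4 + 1) / Real.pi) * ∫⁻ z in ball (0 : ℂ) 1, ∑' x : u,
          ENNReal.ofReal (‖φ z‖ ^ 2 * (1 - ‖z‖ ^ 2) ^ (a + 4)) *
            ENNReal.ofReal (‖cx f (x : ℂ) z‖ ^ 2) := by
      rw [lintegral_tsum, ← ENNReal.tsum_mul_left]
      · refine tsum_congr fun x => ?_
        rw [hberg]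
      · intro x
        refine hWm.mul (ENNReal.measurable_ofReal.comp_aemeasurable ?_)
        exact (((cx_cont hf (hupos _ x.2)).aemeasurable measurableSet_ball).norm).pow_const 2
    rw [h3]
    have h4 : ∀ z ∈ ball (0 : ℂ) 1,
        ENNReal.ofReal κ * ENNReal.ofReal (‖φ z‖ ^ 2 * (1 - ‖z‖ ^ 2) ^ a) ≤ ∑' x : u,
          ENNReal.ofReal (‖φ z‖ ^ 2 * (1 - ‖z‖ ^ 2) ^ (a + 4)) *
            ENNReal.ofReal (‖cx f (x : ℂ) z‖ ^ 2) := by
      intro z hz
      obtain ⟨w, ρ, hρ, hball, hcz⟩ := hthick z hz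
      obtain ⟨b, hb, hlow⟩ := point_low hc hu hz hρ hball hcz
      have hp := one_sub_pos hz
      refine le_trans ?_ (ENNReal.le_tsum (⟨b, hb⟩ : u))
      rw [← ENNReal.ofReal_mul hκ0.le, ← ENNReal.ofReal_mul (by positivity)]
      apply ENNReal.ofReal_le_ofReal
      have h5 : (1 - ‖z‖ ^ 2) ^ (a + 4) = (1 - ‖z‖ ^ 2) ^ a * (1 - ‖z‖ ^ 2) ^ 4 := by
        rw [Real.rpow_add hp]
        congr 1
        rw [← Real.rpow_natCast]
        norm_num
      have h6 : κ ≤ (‖cx f b z‖ * (1 - ‖z‖ ^ 2) ^ 2) ^ 2 := by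
        rw [hκ]
        gcongr
      rw [h5]
      calc κ * (‖φ z‖ ^ 2 * (1 - ‖z‖ ^ 2) ^ a)
          ≤ (‖cx f b z‖ * (1 - ‖z‖ ^ 2) ^ 2) ^ 2 * (‖φ z‖ ^ 2 * (1 - ‖z‖ ^ 2) ^ a) := by
            gcongr
        _ = _ := by ring
    have h5 : ENNReal.ofReal κ * ∫⁻ z in ball (0 : ℂ) 1,
        ENNReal.ofReal (‖φ z‖ ^ 2 * (1 - ‖z‖ ^ 2) ^ a) ≤ ∫⁻ z in ball (0 : ℂ) 1, ∑' x : u,
          ENNReal.ofReal (‖φ z‖ ^ 2 * (1 - ‖z‖ ^ 2) ^ (a + 4)) *
            ENNReal.ofReal (‖cx f (x : ℂ) z‖ ^ 2) := by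
      rw [← lintegral_const_mul' _ _ ENNReal.ofReal_ne_top]
      exact setLIntegral_mono_ae' measurableSet_ball (Eventually.of_forall h4)
    refine le_trans (le_of_eq ?_) (mul_le_mul_right h5 _)
    have h6 : ENNReal.ofReal ((a + 4 + 1) / Real.pi) =
        ENNReal.ofReal ((a + 5) / (a + 1)) * ENNReal.ofReal ((a + 1) / Real.pi) := by
      rw [← ENNReal.ofReal_mul (by positivity)]
      congr 1
      field_simp
      ring
    unfold berg at hφ1
    rw [h6, hm, ENNReal.ofReal_mul (by positivity)]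
    calc ENNReal.ofReal ((a + 5) / (a + 1)) * ENNReal.ofReal κ
        = ENNReal.ofReal ((a + 5) / (a + 1)) * ENNReal.ofReal κ *
          (ENNReal.ofReal ((a + 1) / Real.pi) * ∫⁻ z in ball (0 : ℂ) 1,
            ENNReal.ofReal (‖φ z‖ ^ 2 * (1 - ‖z‖ ^ 2) ^ a)) := by rw [hφ1, mul_one]
      _ = _ := by ring
  have hmtop : m ≠ ∞ := by rw [hm]; exact ENNReal.ofReal_ne_top
  obtain ⟨φ₀, hφ₀, hφ₀1⟩ := exists_unit ha
  have hmM : m ≤ M := le_trans le_add_self (hmain φ₀ hφ₀ hφ₀1)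
  have hle : mult a (schw f) ≤ M - m := by
    unfold mult
    refine iSup₂_le fun φ hφ => ?_
    exact ENNReal.le_sub_of_add_le_right hmtop (hmain φ hφ.1 hφ.2)
  calc mult a (schw f) + m ≤ (M - m) + m := by gcongr
    _ = M := tsub_add_cancel_of_le hmM

end

end Pool.Agent.Lib.MP_85878b_an
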